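import Mathlib

set_option autoImplicit false

/-!
# Three linear orders of a periodic planar triangulation

The vertices are the natural numbers; `hgt M k` (`k = 0, 1, 2`) are three height functions. The
triangles of the triangulation with vertices `4 t, ..., 4 t + 6` are frames of these functions.
-/

namespace Pool.Agent.R786.Trans3

def tpL : List (List Bool) := [[false, false, true, true, false, true, false, false, true, false, false, false], [true, false, false, false, false, false, true, true, false, true, false, false], [false, true, false, false, true, false, false, false, false, false, true, true]]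

def ofL : List (List ℤ) := [[0, 1, 0, 1, 5, 4, 4, 6, 8, 8, 9, 10], [0, 0, 1, 2, 4, 5, 4, 5, 9, 8, 8, 10], [1, 0, 0, 2, 4, 4, 5, 6, 8, 9, 8, 9]]

/-- is the residue `z` on the upper branch of the `k`-th height? -/
def tp (k z : ℕ) : Bool := (tpL.getD k []).getD z false

def ofs (k z : ℕ) : ℤ := (ofL.getD k []).getD z 0

def hgt (M : ℤ) (k i : ℕ) : ℤ :=
  if tp k (i % 12) then M - 12 * (i / 12 : ℕ) - ofs k (i % 12)
  else 12 * (i / 12 : ℕ) + ofs k (i % 12)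

theorem hgt_eq (M : ℤ) (k p c : ℕ) : hgt M k (12 * p + c) =
    if tp k (c % 12) then M - 12 * ((p : ℤ) + (c / 12 : ℕ)) - ofs k (c % 12)
    else 12 * ((p : ℤ) + (c / 12 : ℕ)) + ofs k (c % 12) := by
  unfold hgt
  have h1 : (12 * p + c) / 12 = p + c / 12 := by omega
  have h2 : (12 * p + c) % 12 = c % 12 := by omega
  rw [h1, h2, Nat.cast_add]

theorem h0_0 (M : ℤ) (p : ℕ) : hgt M 0 (12 * p + 0) = 12 * p + 0 := by
  rw [hgt_eq, show tp 0 (0 % 12) = false from rfl, show ofs 0 (0 % 12) = 0 from rfl]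
  simp
theorem h0_1 (M : ℤ) (p : ℕ) : hgt M 0 (12 * p + 1) = 12 * p + 1 := by
  rw [hgt_eq, show tp 0 (1 % 12) = false from rfl, show ofs 0 (1 % 12) = 1 from rfl]
  simp
theorem h0_2 (M : ℤ) (p : ℕ) : hgt M 0 (12 * p + 2) = M - 12 * p - 0 := by
  rw [hgt_eq, show tp 0 (2 % 12) = true from rfl, show ofs 0 (2 % 12) = 0 from rfl]
  simp
theorem h0_3 (M : ℤ) (p : ℕ) : hgt M 0 (12 * p + 3) = M - 12 * p - 1 := by
  rw [hgt_eq, show tp 0 (3 % 12) = true from rfl, show ofs 0 (3 % 12) = 1 from rfl]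
  simp
theorem h0_4 (M : ℤ) (p : ℕ) : hgt M 0 (12 * p + 4) = 12 * p + 5 := by
  rw [hgt_eq, show tp 0 (4 % 12) = false from rfl, show ofs 0 (4 % 12) = 5 from rfl]
  simp
theorem h0_5 (M : ℤ) (p : ℕ) : hgt M 0 (12 * p + 5) = M - 12 * p - 4 := by
  rw [hgt_eq, show tp 0 (5 % 12) = true from rfl, show ofs 0 (5 % 12) = 4 from rfl]
  simp
theorem h0_6 (M : ℤ) (p : ℕ) : hgt M 0 (12 * p + 6) = 12 * p + 4 := by
  rw [hgt_eq, show tp 0 (6 % 12) = false from rfl, show ofs 0 (6 % 12) = 4 from rfl]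
  simp
theorem h0_7 (M : ℤ) (p : ℕ) : hgt M 0 (12 * p + 7) = 12 * p + 6 := by
  rw [hgt_eq, show tp 0 (7 % 12) = false from rfl, show ofs 0 (7 % 12) = 6 from rfl]
  simp
theorem h0_8 (M : ℤ) (p : ℕ) : hgt M 0 (12 * p + 8) = M - 12 * p - 8 := by
  rw [hgt_eq, show tp 0 (8 % 12) = true from rfl, show ofs 0 (8 % 12) = 8 from rfl]
  simp
theorem h0_9 (M : ℤ) (p : ℕ) : hgt M 0 (12 * p + 9) = 12 * p + 8 := by
  rw [hgt_eq, show tp 0 (9 % 12) = false from rfl, show ofs 0 (9 % 12) = 8 from rfl]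
  simp
theorem h0_10 (M : ℤ) (p : ℕ) : hgt M 0 (12 * p + 10) = 12 * p + 9 := by
  rw [hgt_eq, show tp 0 (10 % 12) = false from rfl, show ofs 0 (10 % 12) = 9 from rfl]
  simp
theorem h0_11 (M : ℤ) (p : ℕ) : hgt M 0 (12 * p + 11) = 12 * p + 10 := by
  rw [hgt_eq, show tp 0 (11 % 12) = false from rfl, show ofs 0 (11 % 12) = 10 from rfl]
  simp
theorem h1_0 (M : ℤ) (p : ℕ) : hgt M 1 (12 * p + 0) = M - 12 * p - 0 := by
  rw [hgt_eq, show tp 1 (0 % 12) = true from rfl, show ofs 1 (0 % 12) = 0 from rfl]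
  simp
theorem h1_1 (M : ℤ) (p : ℕ) : hgt M 1 (12 * p + 1) = 12 * p + 0 := by
  rw [hgt_eq, show tp 1 (1 % 12) = false from rfl, show ofs 1 (1 % 12) = 0 from rfl]
  simp
theorem h1_2 (M : ℤ) (p : ℕ) : hgt M 1 (12 * p + 2) = 12 * p + 1 := by
  rw [hgt_eq, show tp 1 (2 % 12) = false from rfl, show ofs 1 (2 % 12) = 1 from rfl]
  simp
theorem h1_3 (M : ℤ) (p : ℕ) : hgt M 1 (12 * p + 3) = 12 * p + 2 := by
  rw [hgt_eq, show tp 1 (3 % 12) = false from rfl, show ofs 1 (3 % 12) = 2 from rfl]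
  simp
theorem h1_4 (M : ℤ) (p : ℕ) : hgt M 1 (12 * p + 4) = 12 * p + 4 := by
  rw [hgt_eq, show tp 1 (4 % 12) = false from rfl, show ofs 1 (4 % 12) = 4 from rfl]
  simp
theorem h1_5 (M : ℤ) (p : ℕ) : hgt M 1 (12 * p + 5) = 12 * p + 5 := by
  rw [hgt_eq, show tp 1 (5 % 12) = false from rfl, show ofs 1 (5 % 12) = 5 from rfl]
  simp
theorem h1_6 (M : ℤ) (p : ℕ) : hgt M 1 (12 * p + 6) = M - 12 * p - 4 := by
  rw [hgt_eq, show tp 1 (6 % 12) = true from rfl, show ofs 1 (6 % 12) = 4 from rfl]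
  simp
theorem h1_7 (M : ℤ) (p : ℕ) : hgt M 1 (12 * p + 7) = M - 12 * p - 5 := by
  rw [hgt_eq, show tp 1 (7 % 12) = true from rfl, show ofs 1 (7 % 12) = 5 from rfl]
  simp
theorem h1_8 (M : ℤ) (p : ℕ) : hgt M 1 (12 * p + 8) = 12 * p + 9 := by
  rw [hgt_eq, show tp 1 (8 % 12) = false from rfl, show ofs 1 (8 % 12) = 9 from rfl]
  simp
theorem h1_9 (M : ℤ) (p : ℕ) : hgt M 1 (12 * p + 9) = M - 12 * p - 8 := by
  rw [hgt_eq, show tp 1 (9 % 12) = true from rfl, show ofs 1 (9 % 12) = 8 from rfl]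
  simp
theorem h1_10 (M : ℤ) (p : ℕ) : hgt M 1 (12 * p + 10) = 12 * p + 8 := by
  rw [hgt_eq, show tp 1 (10 % 12) = false from rfl, show ofs 1 (10 % 12) = 8 from rfl]
  simp
theorem h1_11 (M : ℤ) (p : ℕ) : hgt M 1 (12 * p + 11) = 12 * p + 10 := by
  rw [hgt_eq, show tp 1 (11 % 12) = false from rfl, show ofs 1 (11 % 12) = 10 from rfl]
  simp
theorem h2_0 (M : ℤ) (p : ℕ) : hgt M 2 (12 * p + 0) = 12 * p + 1 := by
  rw [hgt_eq, show tp 2 (0 % 12) = false from rfl, show ofs 2 (0 % 12) = 1 from rfl]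
  simp
theorem h2_1 (M : ℤ) (p : ℕ) : hgt M 2 (12 * p + 1) = M - 12 * p - 0 := by
  rw [hgt_eq, show tp 2 (1 % 12) = true from rfl, show ofs 2 (1 % 12) = 0 from rfl]
  simp
theorem h2_2 (M : ℤ) (p : ℕ) : hgt M 2 (12 * p + 2) = 12 * p + 0 := by
  rw [hgt_eq, show tp 2 (2 % 12) = false from rfl, show ofs 2 (2 % 12) = 0 from rfl]
  simp
theorem h2_3 (M : ℤ) (p : ℕ) : hgt M 2 (12 * p + 3) = 12 * p + 2 := by
  rw [hgt_eq, show tp 2 (3 % 12) = false from rfl, show ofs 2 (3 % 12) = 2 from rfl]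
  simp
theorem h2_4 (M : ℤ) (p : ℕ) : hgt M 2 (12 * p + 4) = M - 12 * p - 4 := by
  rw [hgt_eq, show tp 2 (4 % 12) = true from rfl, show ofs 2 (4 % 12) = 4 from rfl]
  simp
theorem h2_5 (M : ℤ) (p : ℕ) : hgt M 2 (12 * p + 5) = 12 * p + 4 := by
  rw [hgt_eq, show tp 2 (5 % 12) = false from rfl, show ofs 2 (5 % 12) = 4 from rfl]
  simp
theorem h2_6 (M : ℤ) (p : ℕ) : hgt M 2 (12 * p + 6) = 12 * p + 5 := by
  rw [hgt_eq, show tp 2 (6 % 12) = false from rfl, show ofs 2 (6 % 12) = 5 from rfl]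
  simp
theorem h2_7 (M : ℤ) (p : ℕ) : hgt M 2 (12 * p + 7) = 12 * p + 6 := by
  rw [hgt_eq, show tp 2 (7 % 12) = false from rfl, show ofs 2 (7 % 12) = 6 from rfl]
  simp
theorem h2_8 (M : ℤ) (p : ℕ) : hgt M 2 (12 * p + 8) = 12 * p + 8 := by
  rw [hgt_eq, show tp 2 (8 % 12) = false from rfl, show ofs 2 (8 % 12) = 8 from rfl]
  simp
theorem h2_9 (M : ℤ) (p : ℕ) : hgt M 2 (12 * p + 9) = 12 * p + 9 := by
  rw [hgt_eq, show tp 2 (9 % 12) = false from rfl, show ofs 2 (9 % 12) = 9 from rfl]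
  simp
theorem h2_10 (M : ℤ) (p : ℕ) : hgt M 2 (12 * p + 10) = M - 12 * p - 8 := by
  rw [hgt_eq, show tp 2 (10 % 12) = true from rfl, show ofs 2 (10 % 12) = 8 from rfl]
  simp
theorem h2_11 (M : ℤ) (p : ℕ) : hgt M 2 (12 * p + 11) = M - 12 * p - 9 := by
  rw [hgt_eq, show tp 2 (11 % 12) = true from rfl, show ofs 2 (11 % 12) = 9 from rfl]
  simp
theorem h0_12 (M : ℤ) (p : ℕ) : hgt M 0 (12 * p + 12) = 12 * p + 12 := by
  rw [show 12 * p + 12 = 12 * (p + 1) + 0 by ring, h0_0]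
  push_cast
  ring
theorem h0_13 (M : ℤ) (p : ℕ) : hgt M 0 (12 * p + 13) = 12 * p + 13 := by
  rw [show 12 * p + 13 = 12 * (p + 1) + 1 by ring, h0_1]
  push_cast
  ring
theorem h0_14 (M : ℤ) (p : ℕ) : hgt M 0 (12 * p + 14) = M - 12 * p - 12 := by
  rw [show 12 * p + 14 = 12 * (p + 1) + 2 by ring, h0_2]
  push_cast
  ring
theorem h1_12 (M : ℤ) (p : ℕ) : hgt M 1 (12 * p + 12) = M - 12 * p - 12 := by
  rw [show 12 * p + 12 = 12 * (p + 1) + 0 by ring, h1_0]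
  push_cast
  ring
theorem h1_13 (M : ℤ) (p : ℕ) : hgt M 1 (12 * p + 13) = 12 * p + 12 := by
  rw [show 12 * p + 13 = 12 * (p + 1) + 1 by ring, h1_1]
  push_cast
  ring
theorem h1_14 (M : ℤ) (p : ℕ) : hgt M 1 (12 * p + 14) = 12 * p + 13 := by
  rw [show 12 * p + 14 = 12 * (p + 1) + 2 by ring, h1_2]
  push_cast
  ring
theorem h2_12 (M : ℤ) (p : ℕ) : hgt M 2 (12 * p + 12) = 12 * p + 13 := by
  rw [show 12 * p + 12 = 12 * (p + 1) + 0 by ring, h2_0]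
  push_cast
  ring
theorem h2_13 (M : ℤ) (p : ℕ) : hgt M 2 (12 * p + 13) = M - 12 * p - 12 := by
  rw [show 12 * p + 13 = 12 * (p + 1) + 1 by ring, h2_1]
  push_cast
  ring
theorem h2_14 (M : ℤ) (p : ℕ) : hgt M 2 (12 * p + 14) = 12 * p + 12 := by
  rw [show 12 * p + 14 = 12 * (p + 1) + 2 by ring, h2_2]
  push_cast
  ring

/-- the labelled triangles, in the three classes of layers -/
def tabL : List (List (List ℕ)) := [[[5, 0, 6], [2, 3, 1], [2, 0, 3], [3, 0, 5], [6, 0, 1], [4, 6, 1], [3, 4, 1], [3, 5, 4]], [[10, 9, 4], [5, 6, 7], [7, 6, 4], [9, 7, 4], [5, 10, 4], [5, 8, 10], [5, 7, 8], [8, 7, 9]], [[8, 14, 13], [11, 9, 10], [8, 11, 10], [8, 13, 11], [8, 9, 14], [14, 9, 12], [12, 9, 11], [13, 12, 11]]]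

def tab (e f k : ℕ) : ℕ := ((tabL.getD e []).getD f []).getD k 0

theorem frame_max (M : ℤ) (K p e f : ℕ) (he : e < 3) (hf : f < 8) (hp : 12 * p + 4 * e < 4 * K)
    (hM : M = 12 * K + 100) (k l : ℕ) (hk : k < 3) (hl : l < 3) (hkl : l ≠ k) :
    hgt M k (12 * p + tab e f l) < hgt M k (12 * p + tab e f k) := by
  interval_cases e <;> interval_cases f <;> simp only [tab, tabL, List.getD_cons_zero,
    List.getD_cons_succ] <;> interval_cases k <;> interval_cases l <;>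
    first
    | (exact absurd rfl hkl)
    | (simp only [List.getD_cons_zero, List.getD_cons_succ, h0_0, h0_1, h0_2, h0_3, h0_4, h0_5, h0_6, h0_7, h0_8, h0_9, h0_10, h0_11, h1_0, h1_1, h1_2, h1_3, h1_4, h1_5, h1_6, h1_7, h1_8, h1_9, h1_10, h1_11, h2_0, h2_1, h2_2, h2_3, h2_4, h2_5, h2_6, h2_7, h2_8, h2_9, h2_10, h2_11, h0_12, h0_13, h0_14, h1_12, h1_13, h1_14, h2_12, h2_13, h2_14]; omega)

theorem frame_dom (M : ℤ) (K p e f : ℕ) (he : e < 3) (hf : f < 8) (hp : 12 * p + 4 * e < 4 * K)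
    (hM : M = 12 * K + 100) (v : ℕ) (hv : v < 4 * K + 3)
    (h0 : v ≠ 12 * p + tab e f 0) (h1 : v ≠ 12 * p + tab e f 1) (h2 : v ≠ 12 * p + tab e f 2) :
    hgt M 0 (12 * p + tab e f 0) < hgt M 0 v ∨ hgt M 1 (12 * p + tab e f 1) < hgt M 1 v ∨
      hgt M 2 (12 * p + tab e f 2) < hgt M 2 v := by
  obtain ⟨q, z, hz, rfl⟩ : ∃ q z, z < 12 ∧ v = 12 * q + z := ⟨v / 12, v % 12, by omega, by omega⟩
  interval_cases e <;> interval_cases f <;> simp only [tab, tabL, List.getD_cons_zero,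
    List.getD_cons_succ] at h0 h1 h2 ⊢ <;> interval_cases z <;>
    simp only [h0_0, h0_1, h0_2, h0_3, h0_4, h0_5, h0_6, h0_7, h0_8, h0_9, h0_10, h0_11, h1_0, h1_1, h1_2, h1_3, h1_4, h1_5, h1_6, h1_7, h1_8, h1_9, h1_10, h1_11, h2_0, h2_1, h2_2, h2_3, h2_4, h2_5, h2_6, h2_7, h2_8, h2_9, h2_10, h2_11, h0_12, h0_13, h0_14, h1_12, h1_13, h1_14, h2_12, h2_13, h2_14] <;> omega

/-- the heights of two different vertices are incomparable -/
theorem antichain (M : ℤ) (K : ℕ) (hM : M = 12 * K + 100) (i j : ℕ) (hi : i < 4 * K + 3)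
    (hj : j < 4 * K + 3) (hij : i ≠ j) :
    hgt M 0 i < hgt M 0 j ∨ hgt M 1 i < hgt M 1 j ∨ hgt M 2 i < hgt M 2 j := by
  obtain ⟨p, y, hy, rfl⟩ : ∃ q z, z < 12 ∧ i = 12 * q + z := ⟨i / 12, i % 12, by omega, by omega⟩
  obtain ⟨q, z, hz, rfl⟩ : ∃ q z, z < 12 ∧ j = 12 * q + z := ⟨j / 12, j % 12, by omega, by omega⟩
  interval_cases y <;> interval_cases z <;> simp only [h0_0, h0_1, h0_2, h0_3, h0_4, h0_5, h0_6, h0_7, h0_8, h0_9, h0_10, h0_11, h1_0, h1_1, h1_2, h1_3, h1_4, h1_5, h1_6, h1_7, h1_8, h1_9, h1_10, h1_11, h2_0, h2_1, h2_2, h2_3, h2_4, h2_5, h2_6, h2_7, h2_8, h2_9, h2_10, h2_11, h0_12, h0_13, h0_14, h1_12, h1_13, h1_14, h2_12, h2_13, h2_14] <;> omega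

end Pool.Agent.R786.Trans3
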