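import Mathlib
import Pool.Agent.H523R3.TransMain
import Pool.Agent.R786.Trans3

set_option autoImplicit false

/-!
# Simplicial 3-polytopes with transversal ratio close to one half
-/

namespace Pool.Agent.R786.Trans3

open Pool.Agent.H523R3.Trans Pool.Agent.H523R3.Frames Filter

/-- the local inequality -/
theorem local_ineq (a b c w A B C : Bool) (h0 : B || a || C) (h1 : b || c || w)
    (h2 : c || a || w) (h3 : a || w || B) (h4 : b || a || C) (h5 : A || C || b)
    (h6 : b || A || w) (h7 : A || w || B) :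
    2 + (if (A && B) || (A && C) || (B && C) then 1 else 0) ≤
      w.toNat + A.toNat + B.toNat + C.toNat +
        (if (a && b) || (a && c) || (b && c) then 1 else 0) := by
  revert a b c w A B C
  decide

/-- indicator that two of the three vertices of a layer are used -/
def ind (g : ℕ → Bool) (t : ℕ) : ℕ :=
  if (g (4 * t) && g (4 * t + 1)) || (g (4 * t) && g (4 * t + 2)) ||
    (g (4 * t + 1) && g (4 * t + 2)) then 1 else 0

theorem count_bound (g : ℕ → Bool) (K : ℕ)
    (h : ∀ t, t < K → ∀ f, f < 8 → g (12 * (t / 3) + tab (t % 3) f 0) = true ∨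
      g (12 * (t / 3) + tab (t % 3) f 1) = true ∨ g (12 * (t / 3) + tab (t % 3) f 2) = true) :
    ∀ t, t ≤ K → 2 * t + ind g t ≤ (∑ i ∈ Finset.range (4 * t + 3), (g i).toNat) + 1 := by
  intro t
  induction t with
  | zero =>
    intro _
    unfold ind
    split_ifs with h1
    · simp
    · simp
  | succ t ih =>
    intro ht
    have ih' := ih (by omega)
    have e0 : 4 * (t + 1) + 3 = 4 * t + 3 + 1 + 1 + 1 + 1 := by ring
    rw [e0, Finset.sum_range_succ, Finset.sum_range_succ, Finset.sum_range_succ,
      Finset.sum_range_succ]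
    have hh := h t (by omega)
    have key : 2 + ind g (t + 1) ≤ (g (4 * t + 3)).toNat + (g (4 * t + 4)).toNat +
        (g (4 * t + 5)).toNat + (g (4 * t + 6)).toNat + ind g t := by
      have h0 := hh 0 (by norm_num)
      have h1 := hh 1 (by norm_num)
      have h2 := hh 2 (by norm_num)
      have h3 := hh 3 (by norm_num)
      have h4 := hh 4 (by norm_num)
      have h5 := hh 5 (by norm_num)
      have h6 := hh 6 (by norm_num)
      have h7 := hh 7 (by norm_num)
      obtain ⟨p, e, he, rfl⟩ : ∃ p e, e < 3 ∧ t = 3 * p + e := ⟨t / 3, t % 3, by omega, by omega⟩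
      have e1 : (3 * p + e) / 3 = p := by omega
      have e2 : (3 * p + e) % 3 = e := by omega
      rw [e1, e2] at h0 h1 h2 h3 h4 h5 h6 h7
      unfold ind
      interval_cases e
      · have s0 : 4 * (3 * p + 0) = 12 * p := by ring
        have s1 : 4 * (3 * p + 0 + 1) = 12 * p + 4 := by ring
        rw [s0, s1]
        have l := local_ineq (g (12 * p)) (g (12 * p + 1)) (g (12 * p + 2)) (g (12 * p + 3)) (g (12 * p + 4))
          (g (12 * p + 5)) (g (12 * p + 6))
          (by rcases h0 with h | h | h <;> simp [tab, tabL] at h <;> simp [h])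
          (by rcases h1 with h | h | h <;> simp [tab, tabL] at h <;> simp [h])
          (by rcases h2 with h | h | h <;> simp [tab, tabL] at h <;> simp [h])
          (by rcases h3 with h | h | h <;> simp [tab, tabL] at h <;> simp [h])
          (by rcases h4 with h | h | h <;> simp [tab, tabL] at h <;> simp [h])
          (by rcases h5 with h | h | h <;> simp [tab, tabL] at h <;> simp [h])
          (by rcases h6 with h | h | h <;> simp [tab, tabL] at h <;> simp [h])
          (by rcases h7 with h | h | h <;> simp [tab, tabL] at h <;> simp [h])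
        exact l
      · have s0 : 4 * (3 * p + 1) = 12 * p + 4 := by ring
        have s1 : 4 * (3 * p + 1 + 1) = 12 * p + 8 := by ring
        rw [s0, s1]
        have l := local_ineq (g (12 * p + 4)) (g (12 * p + 5)) (g (12 * p + 6)) (g (12 * p + 7)) (g (12 * p + 8))
          (g (12 * p + 9)) (g (12 * p + 10))
          (by rcases h0 with h | h | h <;> simp [tab, tabL] at h <;> simp [h])
          (by rcases h1 with h | h | h <;> simp [tab, tabL] at h <;> simp [h])
          (by rcases h2 with h | h | h <;> simp [tab, tabL] at h <;> simp [h])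
          (by rcases h3 with h | h | h <;> simp [tab, tabL] at h <;> simp [h])
          (by rcases h4 with h | h | h <;> simp [tab, tabL] at h <;> simp [h])
          (by rcases h5 with h | h | h <;> simp [tab, tabL] at h <;> simp [h])
          (by rcases h6 with h | h | h <;> simp [tab, tabL] at h <;> simp [h])
          (by rcases h7 with h | h | h <;> simp [tab, tabL] at h <;> simp [h])
        exact l
      · have s0 : 4 * (3 * p + 2) = 12 * p + 8 := by ring
        have s1 : 4 * (3 * p + 2 + 1) = 12 * p + 12 := by ring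
        rw [s0, s1]
        have l := local_ineq (g (12 * p + 8)) (g (12 * p + 9)) (g (12 * p + 10)) (g (12 * p + 11)) (g (12 * p + 12))
          (g (12 * p + 13)) (g (12 * p + 14))
          (by rcases h0 with h | h | h <;> simp [tab, tabL] at h <;> simp [h])
          (by rcases h1 with h | h | h <;> simp [tab, tabL] at h <;> simp [h])
          (by rcases h2 with h | h | h <;> simp [tab, tabL] at h <;> simp [h])
          (by rcases h3 with h | h | h <;> simp [tab, tabL] at h <;> simp [h])
          (by rcases h4 with h | h | h <;> simp [tab, tabL] at h <;> simp [h])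
          (by rcases h5 with h | h | h <;> simp [tab, tabL] at h <;> simp [h])
          (by rcases h6 with h | h | h <;> simp [tab, tabL] at h <;> simp [h])
          (by rcases h7 with h | h | h <;> simp [tab, tabL] at h <;> simp [h])
        exact l
    omega

/-- **Polytopes of dimension three.** -/
theorem exists_polytope3 (K : ℕ) (hK : 1 ≤ K) :
    ∃ p : Fin (4 * K + 3) → E 3, IsSimplicialPolytope 3 p ∧
      ∀ W : Finset (Fin (4 * K + 3)), IsTransversal (boundary p) W → 2 * K ≤ W.card + 1 := by
  classical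
  set M : ℤ := 12 * K + 100 with hM
  let F : Fin 3 → Fin (4 * K + 3) → ℤ := fun k i => hgt M k.val i.val
  obtain ⟨s, hs, hF, hgp⟩ := exists_paramD (by norm_num : 0 < 3) F
  have hanti : ∀ i j, i ≠ j → ∃ k, F k i < F k j := by
    intro i j hij
    have hij' : i.val ≠ j.val := fun h => hij (Fin.ext h)
    rcases antichain M K hM i.val j.val i.2 j.2 hij' with h | h | h
    · exact ⟨0, h⟩
    · exact ⟨1, h⟩
    · exact ⟨2, h⟩
  have hp := isSimplicialPolytope_pt (by norm_num : 0 < 3) (by omega) F hanti hs hF hgp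
  refine ⟨pt F s, hp, ?_⟩
  intro W hW
  let g : ℕ → Bool := fun i => decide (∃ h : i < 4 * K + 3, (⟨i, h⟩ : Fin (4 * K + 3)) ∈ W)
  have hg : ∀ t, t < K → ∀ f, f < 8 → g (12 * (t / 3) + tab (t % 3) f 0) = true ∨
      g (12 * (t / 3) + tab (t % 3) f 1) = true ∨ g (12 * (t / 3) + tab (t % 3) f 2) = true := by
    intro t ht f hf
    have hlt : ∀ k, k < 3 → 12 * (t / 3) + tab (t % 3) f k < 4 * K + 3 := by
      intro k hk
      obtain ⟨p, e, he, rfl⟩ : ∃ p e, e < 3 ∧ t = 3 * p + e := ⟨t / 3, t % 3, by omega, by omega⟩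
      have e1 : (3 * p + e) / 3 = p := by omega
      have e2 : (3 * p + e) % 3 = e := by omega
      rw [e1, e2]
      have hb : tab e f k ≤ 4 * e + 6 := by
        interval_cases e <;> interval_cases f <;> interval_cases k <;> decide
      omega
    let a : Fin 3 → Fin (4 * K + 3) := fun k => ⟨12 * (t / 3) + tab (t % 3) f k.val, hlt _ k.2⟩
    have hp4 : 12 * (t / 3) + 4 * (t % 3) < 4 * K := by omega
    have ha : ∀ k l, l ≠ k → F k (a l) < F k (a k) := by
      intro k l hkl
      exact frame_max M K (t / 3) (t % 3) f (by omega) hf hp4 hM k.val l.val k.2 l.2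
        (fun h => hkl (Fin.ext h))
    have hv : ∀ v, (∀ k, v ≠ a k) → ∃ k, F k (a k) < F k v := by
      intro v hv
      have h0 := hv 0
      have h1 := hv 1
      have h2 := hv 2
      rcases frame_dom M K (t / 3) (t % 3) f (by omega) hf hp4 hM v.val v.2
        (fun h => h0 (Fin.ext h)) (fun h => h1 (Fin.ext h)) (fun h => h2 (Fin.ext h)) with h | h | h
      · exact ⟨0, h⟩
      · exact ⟨1, h⟩
      · exact ⟨2, h⟩
    obtain ⟨v, hv1, hv2⟩ := hW _ (isFacet_of_frame (by norm_num : 0 < 3) F hs hF hp a ha hv)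
    simp only [Finset.mem_image, Finset.mem_univ, true_and] at hv1
    obtain ⟨k, rfl⟩ := hv1
    have hgk : g (12 * (t / 3) + tab (t % 3) f k.val) = true := by
      show decide _ = true
      rw [decide_eq_true_iff]
      exact ⟨hlt _ k.2, hv2⟩
    fin_cases k
    · exact Or.inl hgk
    · exact Or.inr (Or.inl hgk)
    · exact Or.inr (Or.inr hgk)
  have hb := count_bound g K hg K le_rfl
  have hcard : W.card = ∑ i ∈ Finset.range (4 * K + 3), (g i).toNat := by
    rw [← Fin.sum_univ_eq_sum_range (fun i => (g i).toNat) (4 * K + 3)]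
    have h1 : ∀ i : Fin (4 * K + 3), (g i.val).toNat = if i ∈ W then 1 else 0 := by
      intro i
      by_cases hi : i ∈ W
      · have : g i.val = true := by
          show decide _ = true
          rw [decide_eq_true_iff]
          exact ⟨i.2, hi⟩
        rw [this, if_pos hi]
        rfl
      · have : g i.val = false := by
          show decide _ = false
          rw [decide_eq_false_iff_not]
          rintro ⟨h, h'⟩
          exact hi h'
        rw [this, if_neg hi]
        rfl
    rw [Finset.sum_congr rfl fun i _ => h1 i]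
    simp
  rw [hcard]
  omega

theorem half_le_limsup (A : ℕ → Set ℝ) (c : ℝ) (hle : ∀ n, ∀ t ∈ A n, t ≤ 1)
    (hge : ∀ ε : ℝ, 0 < ε → ∀ N : ℕ, ∃ n, N ≤ n ∧ ∃ t ∈ A n, c - ε ≤ t) :
    c ≤ limsup (fun n => sSup (A n)) atTop := by
  have hu : ∀ n, sSup (A n) ≤ 1 := fun n => Real.sSup_le (hle n) zero_le_one
  have hbdd : IsBoundedUnder (· ≤ ·) atTop (fun n => sSup (A n)) :=
    isBoundedUnder_of ⟨1, hu⟩
  apply le_of_forall_pos_le_add
  intro ε hε
  have hfreq : ∃ᶠ n in atTop, c - ε ≤ sSup (A n) := by
    rw [frequently_atTop]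
    intro N
    obtain ⟨n, hn, t, ht, h1⟩ := hge ε hε N
    exact ⟨n, hn, h1.trans (le_csSup ⟨1, fun x hx => hle n x hx⟩ ht)⟩
  have := le_limsup_of_frequently_le hfreq hbdd
  linarith

theorem ratio3 (ε : ℝ) (hε : 0 < ε) (N : ℕ) : ∃ n, N ≤ n ∧ ∃ p : Fin n → E 3,
    IsSimplicialPolytope 3 p ∧ 1 / 2 - ε ≤ transversalRatio (boundary p) := by
  obtain ⟨m, hm⟩ := exists_nat_gt (1 / ε)
  obtain ⟨p, hp, hW⟩ := exists_polytope3 (N + m + 1) (by omega)
  refine ⟨4 * (N + m + 1) + 3, by omega, p, hp, ?_⟩
  have hΔ := isComplex_boundary (by norm_num : 0 < 3) hp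
  have hne : {k | ∃ W, IsTransversal (boundary p) W ∧ W.card = k}.Nonempty := by
    refine ⟨_, Finset.univ, ?_, rfl⟩
    intro t ht
    have hne : t.Nonempty := by
      by_contra hcon
      rw [Finset.not_nonempty_iff_eq_empty] at hcon
      have := ht.2 {⟨0, by omega⟩} (hΔ.vert _) (by rw [hcon]; exact Finset.empty_subset _)
      rw [hcon] at this
      exact Finset.singleton_ne_empty _ this
    obtain ⟨v, hv⟩ := hne
    exact ⟨v, hv, Finset.mem_univ v⟩
  obtain ⟨W, hWt, hWcard⟩ := Nat.sInf_mem hne
  have h1 := hW W hWt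
  unfold transversalRatio transversalNumber
  rw [← hWcard]
  have h2 : ((2 * (N + m + 1) : ℕ) : ℝ) ≤ ((W.card + 1 : ℕ) : ℝ) := by exact_mod_cast h1
  have h3 : (0 : ℝ) < ((4 * (N + m + 1) + 3 : ℕ) : ℝ) := by positivity
  rw [le_div_iff₀ h3]
  have hmε : 1 < ε * m := by
    rw [div_lt_iff₀ hε] at hm
    linarith
  push_cast at h2 h3 ⊢
  have hN : (0 : ℝ) ≤ N := Nat.cast_nonneg N
  nlinarith [mul_nonneg hε.le hN]

theorem half_le_tauP3 : 1 / 2 ≤ tauP 3 := by
  apply half_le_limsup
  · rintro n t ⟨p, hp, rfl⟩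
    exact transversalRatio_le_one (isComplex_boundary (by norm_num) hp)
  · intro ε hε N
    obtain ⟨n, hn, p, hp, h⟩ := ratio3 ε hε N
    exact ⟨n, hn, _, ⟨p, hp, rfl⟩, h⟩

theorem half_le_tauS3 : 1 / 2 ≤ tauS 3 := by
  apply half_le_limsup
  · rintro n t ⟨Δ, hΔ, rfl⟩
    exact transversalRatio_le_one hΔ.1
  · intro ε hε N
    obtain ⟨n, hn, p, hp, h⟩ := ratio3 ε hε N
    exact ⟨n, hn, _, ⟨boundary p, isSimplicialSphere_boundary (by norm_num) hp, rfl⟩, h⟩

end Pool.Agent.R786.Trans3
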