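import Mathlib
import Pool.Agent.R786.Trans3b

set_option autoImplicit false

/-!
# Simplicial 1-spheres have small transversals
-/

namespace Pool.Agent.R786.Circle2

open Pool.Agent.H523R3.Trans Filter Topology

section

variable {n : ℕ} {Δ : Set (Finset (Fin n))}

theorem supp_single (v : Fin n) :
    Finset.univ.filter (fun i => (Pi.single v 1 : Fin n → ℝ) i ≠ 0) = {v} := by
  ext i
  simp only [Finset.mem_filter, Finset.mem_univ, true_and, Finset.mem_singleton]
  by_cases h : i = v
  · subst h; simp
  · simp [Pi.single_eq_of_ne h, h]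

/-- the vertex `v` as a point of the realisation -/
def vp (hΔ : IsComplex Δ) (v : Fin n) : realization Δ :=
  ⟨Pi.single v 1, by
    refine ⟨fun i => ?_, ?_, ?_⟩
    · by_cases h : i = v
      · subst h; simp
      · simp [Pi.single_eq_of_ne h]
    · simp
    · rw [supp_single]
      exact hΔ.vert v⟩

/-- the open simplex of a face -/
def opn (Δ : Set (Finset (Fin n))) (s : Finset (Fin n)) : Set (realization Δ) :=
  {x | Finset.univ.filter (fun i => (x : Fin n → ℝ) i ≠ 0) = s}

theorem preconn (s : Finset (Fin n)) (hs : s ∈ Δ) : IsPreconnected (opn Δ s) := by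
  let C : Set (Fin n → ℝ) := {x | (∀ i, 0 ≤ x i) ∧ ∑ i, x i = 1 ∧ (∀ i ∈ s, 0 < x i) ∧
    ∀ i ∉ s, x i = 0}
  have hC : Convex ℝ C := by
    intro x hx y hy a b ha hb hab
    refine ⟨fun i => ?_, ?_, fun i hi => ?_, fun i hi => ?_⟩
    · exact add_nonneg (mul_nonneg ha (hx.1 i)) (mul_nonneg hb (hy.1 i))
    · simp only [Pi.add_apply, Pi.smul_apply, smul_eq_mul, Finset.sum_add_distrib,
        ← Finset.mul_sum, hx.2.1, hy.2.1, mul_one, hab]
    · simp only [Pi.add_apply, Pi.smul_apply, smul_eq_mul]
      rcases eq_or_lt_of_le ha with h | h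
      · have hb1 : b = 1 := by linarith
        rw [← h, hb1]
        simpa using hy.2.2.1 i hi
      · have := mul_pos h (hx.2.2.1 i hi)
        have := mul_nonneg hb (hy.1 i)
        linarith
    · simp only [Pi.add_apply, Pi.smul_apply, smul_eq_mul, hx.2.2.2 i hi, hy.2.2.2 i hi, mul_zero,
        add_zero]
  have hfil : ∀ x ∈ C, Finset.univ.filter (fun i => x i ≠ 0) = s := by
    intro x hx
    ext i
    simp only [Finset.mem_filter, Finset.mem_univ, true_and]
    constructor
    · intro h
      by_contra hi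
      exact h (hx.2.2.2 i hi)
    · intro h
      exact (hx.2.2.1 i h).ne'
  haveI : PreconnectedSpace C := Subtype.preconnectedSpace hC.isPreconnected
  let g : C → realization Δ := fun x => ⟨x.1, x.2.1, x.2.2.1, by rw [hfil x.1 x.2]; exact hs⟩
  have hg : Continuous g := by
    apply Continuous.subtype_mk
    exact continuous_subtype_val
  have hr : Set.range g = opn Δ s := by
    ext x
    constructor
    · rintro ⟨y, rfl⟩
      exact hfil y.1 y.2
    · intro hx
      refine ⟨⟨x.1, x.2.1, x.2.2.1, fun i hi => ?_, fun i hi => ?_⟩, rfl⟩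
      · have h1 : i ∈ Finset.univ.filter (fun i => (x : Fin n → ℝ) i ≠ 0) := by rw [hx]; exact hi
        simp only [Finset.mem_filter, Finset.mem_univ, true_and] at h1
        exact lt_of_le_of_ne (x.2.1 i) (Ne.symm h1)
      · by_contra h1
        apply hi
        rw [← hx]
        simp only [Finset.mem_filter, Finset.mem_univ, true_and]
        exact h1
  rw [← hr]
  exact isPreconnected_range hg

theorem vp_mem_closure (hΔ : IsComplex Δ) (s : Finset (Fin n)) (hs : s ∈ Δ) (v : Fin n)
    (hv : v ∈ s) : vp hΔ v ∈ closure (opn Δ s) := by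
  rw [closure_subtype]
  have hcard : (0 : ℝ) < s.card := by exact_mod_cast Finset.card_pos.2 ⟨v, hv⟩
  let b : Fin n → ℝ := fun i => if i ∈ s then 1 / (s.card : ℝ) else 0
  have hb : ∑ i, b i = 1 := by
    simp only [b, Finset.sum_ite_mem, Finset.univ_inter, Finset.sum_const, nsmul_eq_mul]
    field_simp
  let γ : ℝ → Fin n → ℝ := fun t => (1 - t) • (Pi.single v 1 : Fin n → ℝ) + t • b
  have hγ : Continuous γ := by
    have : Continuous fun t : ℝ => (1 - t) • (Pi.single v 1 : Fin n → ℝ) + t • b := by fun_prop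
    exact this
  have h0 : γ 0 = Pi.single v 1 := by simp [γ]
  have hlim : Tendsto γ (𝓝[>] (0 : ℝ)) (𝓝 (Pi.single v 1)) := by
    rw [← h0]
    exact (hγ.tendsto 0).mono_left nhdsWithin_le_nhds
  refine mem_closure_of_tendsto hlim ?_
  have hmem : Set.Ioo (0 : ℝ) 1 ∈ 𝓝[>] (0 : ℝ) := Ioo_mem_nhdsGT one_pos
  filter_upwards [hmem] with t ht
  have hval : ∀ i, γ t i = (1 - t) * (Pi.single v 1 : Fin n → ℝ) i + t * b i := fun i => rfl
  have hsup : Finset.univ.filter (fun i => γ t i ≠ 0) = s := by
    ext i
    simp only [Finset.mem_filter, Finset.mem_univ, true_and, hval]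
    have hsn : 0 ≤ (Pi.single v 1 : Fin n → ℝ) i := by
      by_cases h : i = v
      · subst h; simp
      · simp [Pi.single_eq_of_ne h]
    constructor
    · intro h
      by_contra hi
      apply h
      have h1 : i ≠ v := fun h => hi (h ▸ hv)
      simp [Pi.single_eq_of_ne h1, b, hi]
    · intro hi
      have h1 : 0 < b i := by simp only [b, if_pos hi]; positivity
      have h2 := mul_pos ht.1 h1
      have h3 : 0 ≤ (1 - t) * (Pi.single v 1 : Fin n → ℝ) i :=
        mul_nonneg (by linarith [ht.2]) hsn
      linarith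
  refine ⟨⟨γ t, fun i => ?_, ?_, ?_⟩, hsup, rfl⟩
  · rw [hval]
    have hsn : 0 ≤ (Pi.single v 1 : Fin n → ℝ) i := by
      by_cases h : i = v
      · subst h; simp
      · simp [Pi.single_eq_of_ne h]
    have hbn : 0 ≤ b i := by
      by_cases h : i ∈ s
      · simp only [b, if_pos h]; positivity
      · simp only [b, if_neg h]; exact le_rfl
    exact add_nonneg (mul_nonneg (by linarith [ht.2]) hsn) (mul_nonneg ht.1.le hbn)
  · simp only [hval, Finset.sum_add_distrib, ← Finset.mul_sum, hb]
    simp
  · rw [hsup]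
    exact hs

end

instance : Fact (Module.finrank ℝ (E 2) = 1 + 1) := ⟨by simp⟩

/-- a simplicial 1-sphere with `n` vertices has a transversal with at most `(n + 1) / 2` vertices -/
theorem exists_transversal {n : ℕ} {Δ : Set (Finset (Fin n))} (h : IsSimplicialSphere 2 Δ) :
    ∃ W, IsTransversal Δ W ∧ 2 * W.card ≤ n + 1 := by
  classical
  obtain ⟨hΔ, ⟨φ⟩⟩ := h
  -- the sphere is not empty
  have hrk : 1 < Module.rank ℝ (E 2) := by
    rw [← Module.finrank_eq_rank]
    have : Module.finrank ℝ (E 2) = 2 := by simp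
    rw [this]
    norm_num
  rcases Nat.eq_zero_or_pos n with hn | hn
  · subst hn
    have hne : (Metric.sphere (0 : E 2) 1).Nonempty := NormedSpace.sphere_nonempty.2 zero_le_one
    obtain ⟨y, hy⟩ := hne
    have h1 := (φ.symm ⟨y, hy⟩).2.2.1
    simp at h1
  let v0 : Fin n := ⟨0, hn⟩
  set P0 := φ (vp hΔ v0) with hP0
  let σ := stereographic' 1 P0
  let f : realization Δ → ℝ := fun x => (σ (φ x)) 0
  have hsrc : ∀ x : realization Δ, x ≠ vp hΔ v0 → φ x ∈ σ.source := by
    intro x hx
    rw [stereographic'_source]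
    intro h
    apply hx
    exact φ.injective h
  have hcont : ContinuousOn f {x | x ≠ vp hΔ v0} := by
    have h1 : ContinuousOn (fun x => σ (φ x)) {x | x ≠ vp hΔ v0} :=
      σ.continuousOn.comp φ.continuous.continuousOn (fun x hx => hsrc x hx)
    have h2 : Continuous fun y : EuclideanSpace ℝ (Fin 1) => y 0 := by fun_prop
    exact h2.comp_continuousOn h1
  have hinj : ∀ x y : realization Δ, x ≠ vp hΔ v0 → y ≠ vp hΔ v0 → f x = f y → x = y := by
    intro x y hx hy hxy
    have h1 : σ (φ x) = σ (φ y) := by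
      ext i
      have : i = 0 := Subsingleton.elim _ _
      rw [this]
      exact hxy
    exact φ.injective (σ.injOn (hsrc x hx) (hsrc y hy) h1)
  have hvinj : ∀ v w, vp hΔ v = vp hΔ w → v = w := by
    intro v w h
    have h1 : (Pi.single v 1 : Fin n → ℝ) = Pi.single w 1 := congrArg Subtype.val h
    have h2 := supp_single (n := n) v
    rw [h1, supp_single] at h2
    exact (Finset.singleton_inj.1 h2).symm
  have hvne : ∀ v, v ≠ v0 → vp hΔ v ≠ vp hΔ v0 := fun v hv h => hv (hvinj _ _ h)
  have hopn : IsOpen {x : realization Δ | x ≠ vp hΔ v0} := isOpen_ne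
  -- the coordinates of the vertices
  let r : Fin n → ℝ := fun v => f (vp hΔ v)
  have hrinj : ∀ v w, v ≠ v0 → w ≠ v0 → r v = r w → v = w := fun v w hv hw h =>
    hvinj _ _ (hinj _ _ (hvne v hv) (hvne w hw) h)
  -- two vertices of a face are consecutive
  have hcons : ∀ s ∈ Δ, ∀ v ∈ s, ∀ w ∈ s, v ≠ v0 → w ≠ v0 → ∀ u, u ≠ v0 → r v < r u →
      r u < r w → False := by
    intro s hs v hv w hw hv0 hw0 u hu0 h1 h2
    have hvw : v ≠ w := fun h => by rw [h] at h1; linarith
    have hns : ∀ x ∈ opn Δ s, ∀ z, x ≠ vp hΔ z := by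
      intro x hx z hxz
      have h3 : Finset.univ.filter (fun i => (x : Fin n → ℝ) i ≠ 0) = s := hx
      rw [hxz] at h3
      have h4 : Finset.univ.filter (fun i => (Pi.single z 1 : Fin n → ℝ) i ≠ 0) = s := h3
      rw [supp_single] at h4
      rw [← h4, Finset.mem_singleton] at hv hw
      exact hvw (hv.trans hw.symm)
    have hsub : opn Δ s ⊆ {x | x ≠ vp hΔ v0} := fun x hx => hns x hx v0
    have hI : IsPreconnected (f '' opn Δ s) := (preconn s hs).image f (hcont.mono hsub)
    have hcl : ∀ z ∈ s, z ≠ v0 → r z ∈ closure (f '' opn Δ s) := by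
      intro z hz hz0
      have hc : ContinuousAt f (vp hΔ z) := hcont.continuousAt (hopn.mem_nhds (hvne z hz0))
      exact hc.continuousWithinAt.mem_closure_image (vp_mem_closure hΔ s hs z hz)
    have hru : r u ∉ f '' opn Δ s := by
      rintro ⟨x, hx, hxu⟩
      exact hns x hx u (hinj _ _ (hsub hx) (hvne u hu0) hxu)
    obtain ⟨y, hy1, hy2⟩ := mem_closure_iff.1 (hcl v hv hv0) (Set.Iio (r u)) isOpen_Iio h1
    obtain ⟨z, hz1, hz2⟩ := mem_closure_iff.1 (hcl w hw hw0) (Set.Ioi (r u)) isOpen_Ioi h2
    exact hru (hI.ordConnected.out hy2 hz2 ⟨hy1.le, le_of_lt hz1⟩)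
  -- no isolated vertices
  have hiso : ∀ v, ¬ IsFacet Δ {v} := by
    intro v hf
    have hop : IsOpen ({vp hΔ v} : Set (realization Δ)) := by
      have : ({vp hΔ v} : Set (realization Δ)) =
          {x : realization Δ | 0 < (x : Fin n → ℝ) v} := by
        ext x
        rw [Set.mem_singleton_iff]
        constructor
        · rintro rfl
          show 0 < (Pi.single v 1 : Fin n → ℝ) v
          simp
        · intro (hx : 0 < (x : Fin n → ℝ) v)
          have h1 := hf.2 _ x.2.2.2 (by
            rw [Finset.singleton_subset_iff, Finset.mem_filter]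
            exact ⟨Finset.mem_univ _, hx.ne'⟩)
          apply Subtype.ext
          show (x : Fin n → ℝ) = Pi.single v 1
          have h2 : ∀ i, i ≠ v → (x : Fin n → ℝ) i = 0 := by
            intro i hi
            by_contra h3
            have h4 : i ∈ Finset.univ.filter (fun i => (x : Fin n → ℝ) i ≠ 0) := by
              simp [h3]
            rw [h1, Finset.mem_singleton] at h4
            exact hi h4
          have h3 := x.2.2.1
          rw [Finset.sum_eq_single v (fun i _ hi => h2 i hi) (by simp)] at h3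
          funext i
          by_cases hi : i = v
          · subst hi
            rw [h3]; simp
          · rw [h2 i hi, Pi.single_eq_of_ne hi]
      rw [this]
      exact isOpen_lt continuous_const ((continuous_apply v).comp continuous_subtype_val)
    have hop2 : IsOpen ({φ (vp hΔ v)} : Set (Metric.sphere (0 : E 2) 1)) := by
      have := φ.isOpenMap _ hop
      rwa [Set.image_singleton] at this
    haveI : ConnectedSpace (Metric.sphere (0 : E 2) 1) :=
      isConnected_iff_connectedSpace.1 (isConnected_sphere hrk 0 zero_le_one)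
    haveI : Nontrivial (Metric.sphere (0 : E 2) 1) := by
      have h1 : ‖(EuclideanSpace.single 0 1 : E 2)‖ = 1 := by simp
      refine ⟨⟨EuclideanSpace.single 0 1, by simp⟩, ⟨-EuclideanSpace.single 0 1, by simp⟩, ?_⟩
      intro h
      have h2 : (EuclideanSpace.single 0 1 : E 2) = -EuclideanSpace.single 0 1 :=
        congrArg Subtype.val h
      have h3 := congrArg (fun y : E 2 => y 0) h2
      simp at h3
      norm_num at h3
    have hne := ConnectedSpace.neBot_nhdsWithin_compl_of_nontrivial_of_t1space (φ (vp hΔ v))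
    rw [← mem_closure_iff_nhdsWithin_neBot, mem_closure_iff] at hne
    obtain ⟨y, hy1, hy2⟩ := hne _ hop2 rfl
    exact hy2 hy1
  -- the rank of a vertex
  let rk : Fin n → ℕ := fun v => (Finset.univ.filter fun u => u ≠ v0 ∧ r u < r v).card
  have hrk_lt : ∀ v w, v ≠ v0 → r v < r w → rk v < rk w := by
    intro v w hv0 hvw
    apply Finset.card_lt_card
    refine ⟨fun u hu => ?_, fun hsub => ?_⟩
    · simp only [Finset.mem_filter, Finset.mem_univ, true_and] at hu ⊢
      exact ⟨hu.1, hu.2.trans hvw⟩
    · have := hsub (show v ∈ _ by simp [hv0, hvw])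
      simp at this
  have hrk_succ : ∀ v w, v ≠ v0 → w ≠ v0 → r v < r w →
      (∀ u, u ≠ v0 → r v < r u → r u < r w → False) → rk w = rk v + 1 := by
    intro v w hv0 hw0 hvw hno
    have : (Finset.univ.filter fun u => u ≠ v0 ∧ r u < r w) =
        insert v (Finset.univ.filter fun u => u ≠ v0 ∧ r u < r v) := by
      ext u
      simp only [Finset.mem_filter, Finset.mem_univ, true_and, Finset.mem_insert]
      constructor
      · rintro ⟨h1, h2⟩
        rcases lt_trichotomy (r u) (r v) with h3 | h3 | h3
        · exact Or.inr ⟨h1, h3⟩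
        · exact Or.inl (hrinj u v h1 hv0 h3)
        · exact (hno u h1 h3 h2).elim
      · rintro (rfl | ⟨h1, h2⟩)
        · exact ⟨hv0, hvw⟩
        · exact ⟨h1, h2.trans hvw⟩
    show (Finset.univ.filter fun u => u ≠ v0 ∧ r u < r w).card = _
    rw [this, Finset.card_insert_of_notMem (by simp)]
  have hrk_bound : ∀ v, v ≠ v0 → rk v + 2 ≤ n := by
    intro v hv
    have h1 : (Finset.univ.filter fun u => u ≠ v0 ∧ r u < r v) ⊆ (Finset.univ.erase v0).erase v := by
      intro u hu
      simp only [Finset.mem_filter, Finset.mem_univ, true_and] at hu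
      rw [Finset.mem_erase, Finset.mem_erase]
      refine ⟨fun h => ?_, hu.1, Finset.mem_univ _⟩
      rw [h] at hu
      exact lt_irrefl _ hu.2
    have h2 := Finset.card_le_card h1
    rw [Finset.card_erase_of_mem (Finset.mem_erase.2 ⟨hv, Finset.mem_univ _⟩),
      Finset.card_erase_of_mem (Finset.mem_univ _), Finset.card_univ, Fintype.card_fin] at h2
    have h3 : 2 ≤ n := by
      have := Fintype.card_fin n
      by_contra hcon
      have hn1 : n = 1 := by omega
      subst hn1
      exact hv (Subsingleton.elim _ _)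
    show (Finset.univ.filter fun u => u ≠ v0 ∧ r u < r v).card + 2 ≤ n
    omega
  let W0 : Finset (Fin n) := Finset.univ.filter fun v => v ≠ v0 ∧ rk v % 2 = 1
  refine ⟨insert v0 W0, ?_, ?_⟩
  · intro s hs
    by_cases hv0 : v0 ∈ s
    · exact ⟨v0, hv0, Finset.mem_insert_self _ _⟩
    have hs2 : 2 ≤ s.card := by
      by_contra hcon
      have h1 : s.card = 0 ∨ s.card = 1 := by omega
      rcases h1 with h1 | h1
      · rw [Finset.card_eq_zero] at h1
        have := hs.2 {v0} (hΔ.vert v0) (by rw [h1]; exact Finset.empty_subset _)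
        rw [h1] at this
        exact Finset.singleton_ne_empty _ this
      · obtain ⟨v, rfl⟩ := Finset.card_eq_one.1 h1
        exact hiso v hs
    obtain ⟨v, hv, w, hw, hvw⟩ := Finset.one_lt_card.1 hs2
    have hv00 : v ≠ v0 := fun h => hv0 (h ▸ hv)
    have hw00 : w ≠ v0 := fun h => hv0 (h ▸ hw)
    have key : ∀ v ∈ s, ∀ w ∈ s, v ≠ v0 → w ≠ v0 → r v < r w →
        ∃ z ∈ s, z ∈ insert v0 W0 := by
      intro v hv w hw hv0 hw0 hlt
      have h1 := hrk_succ v w hv0 hw0 hlt
        (fun u hu h2 h3 => hcons s hs.1 v hv w hw hv0 hw0 u hu h2 h3)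
      rcases Nat.mod_two_eq_zero_or_one (rk v) with h2 | h2
      · refine ⟨w, hw, Finset.mem_insert_of_mem ?_⟩
        simp only [W0, Finset.mem_filter, Finset.mem_univ, true_and]
        exact ⟨hw0, by omega⟩
      · refine ⟨v, hv, Finset.mem_insert_of_mem ?_⟩
        simp only [W0, Finset.mem_filter, Finset.mem_univ, true_and]
        exact ⟨hv0, h2⟩
    rcases lt_trichotomy (r v) (r w) with h1 | h1 | h1
    · exact key v hv w hw hv00 hw00 h1
    · exact (hvw (hrinj v w hv00 hw00 h1)).elim
    · exact key w hw v hv hw00 hv00 h1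
  · have h1 : W0.card ≤ (n - 1) / 2 := by
      have h2 : W0.card ≤ (Finset.range ((n - 1) / 2)).card := by
        apply Finset.card_le_card_of_injOn (fun v => rk v / 2)
        · intro v hv
          simp only [W0, Finset.coe_filter, Finset.mem_univ, true_and, Set.mem_setOf_eq] at hv
          have := hrk_bound v hv.1
          simp only [Finset.coe_range, Set.mem_Iio]
          omega
        · intro v hv w hw hvw
          simp only [W0, Finset.coe_filter, Finset.mem_univ, true_and, Set.mem_setOf_eq] at hv hw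
          have h3 : rk v = rk w := by
            have : rk v / 2 = rk w / 2 := hvw
            omega
          rcases lt_trichotomy (r v) (r w) with h4 | h4 | h4
          · have := hrk_lt v w hv.1 h4
            omega
          · exact hrinj v w hv.1 hw.1 h4
          · have := hrk_lt w v hw.1 h4
            omega
      rwa [Finset.card_range] at h2
    have h2 := Finset.card_insert_le v0 W0
    omega

theorem ratio_le {n : ℕ} {Δ : Set (Finset (Fin n))} (h : IsSimplicialSphere 2 Δ) :
    transversalRatio Δ ≤ 1 / 2 + 1 / n := by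
  obtain ⟨W, hW, hc⟩ := exists_transversal h
  have h1 : transversalNumber Δ ≤ W.card := Nat.sInf_le ⟨W, hW, rfl⟩
  unfold transversalRatio
  rcases Nat.eq_zero_or_pos n with hn | hn
  · subst hn
    norm_num
  have hnR : (0 : ℝ) < n := by exact_mod_cast hn
  rw [div_le_iff₀ hnR, add_mul, one_div_mul_cancel hnR.ne']
  have h2 : (2 : ℝ) * transversalNumber Δ ≤ n + 1 := by
    have : 2 * transversalNumber Δ ≤ n + 1 := by omega
    exact_mod_cast this
  linarith

theorem limsup_le_half (A : ℕ → Set ℝ) (h0 : ∀ n, ∀ t ∈ A n, 0 ≤ t)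
    (hle : ∀ n, ∀ t ∈ A n, t ≤ 1 / 2 + 1 / n) :
    limsup (fun n => sSup (A n)) atTop ≤ 1 / 2 := by
  have hu : ∀ n : ℕ, sSup (A n) ≤ 1 / 2 + 1 / n := fun n =>
    Real.sSup_le (hle n) (by positivity)
  have hl : ∀ n, 0 ≤ sSup (A n) := fun n => Real.sSup_nonneg (h0 n)
  have hcob : IsCoboundedUnder (· ≤ ·) atTop (fun n => sSup (A n)) :=
    IsCoboundedUnder.of_frequently_ge (a := 0) (Frequently.of_forall hl)
  apply le_of_forall_pos_le_add
  intro ε hε
  apply limsup_le_of_le hcob
  have h1 : Tendsto (fun n : ℕ => (1 : ℝ) / n) atTop (𝓝 0) := tendsto_one_div_atTop_nhds_zero_nat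
  filter_upwards [h1.eventually (gt_mem_nhds hε)] with n hn
  linarith [hu n]

theorem tauS2_le : tauS 2 ≤ 1 / 2 := by
  apply limsup_le_half
  · rintro n t ⟨Δ, -, rfl⟩
    exact transversalRatio_nonneg Δ
  · rintro n t ⟨Δ, hΔ, rfl⟩
    exact ratio_le hΔ

theorem tauP2_le : tauP 2 ≤ 1 / 2 := by
  apply limsup_le_half
  · rintro n t ⟨p, -, rfl⟩
    exact transversalRatio_nonneg _
  · rintro n t ⟨p, hp, rfl⟩
    exact ratio_le (isSimplicialSphere_boundary (by norm_num) hp)

end Pool.Agent.R786.Circle2
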