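import Mathlib

set_option autoImplicit false

/-!
Clifford matrices, intertwiners between Clifford systems, and the non-existence of odd loops.
-/

namespace Pool.Agent.R786.Cliff

open Matrix

/-- Real matrices `E i`, `F i` (`i < N`), with `E i * E i = 1`, all mutually anticommuting, whose
joint commutant consists of the real scalars. -/
theorem exists_gamma (N : ℕ) : ∃ (I : Type) (_ : Fintype I) (_ : DecidableEq I) (_ : Nonempty I)
    (E F : Fin N → Matrix I I ℝ),
    (∀ i, E i * E i = 1) ∧ (∀ i j, i ≠ j → E i * E j = - (E j * E i)) ∧
    (∀ i j, E i * F j = - (F j * E i)) ∧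
    (∀ z : Matrix I I ℝ, (∀ i, z * E i = E i * z) → (∀ i, z * F i = F i * z) →
      ∃ c : ℝ, z = c • (1 : Matrix I I ℝ)) := by
  induction N with
  | zero =>
    refine ⟨Unit, inferInstance, inferInstance, inferInstance, Fin.elim0, Fin.elim0,
      fun i => i.elim0, fun i => i.elim0, fun i => i.elim0, ?_⟩
    intro z _ _
    refine ⟨z () (), ?_⟩
    ext i j
    simp
  | succ N ih =>
    obtain ⟨I, hF, hD, hN, E, F, h1, h2, h3, h4⟩ := ih
    refine ⟨I ⊕ I, inferInstance, inferInstance, inferInstance,
      Fin.snoc (fun i => fromBlocks (E i) 0 0 (-(E i))) (fromBlocks 0 1 1 0),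
      Fin.snoc (fun i => fromBlocks (F i) 0 0 (-(F i))) (fromBlocks 0 1 (-1) 0), ?_, ?_, ?_, ?_⟩
    · intro i
      refine Fin.lastCases ?_ (fun i => ?_) i
      · simp [fromBlocks_multiply]
      · simp [fromBlocks_multiply, h1]
    · intro i j
      refine Fin.lastCases ?_ (fun i => ?_) i
      · refine Fin.lastCases ?_ (fun j => ?_) j
        · intro h; exact absurd rfl h
        · intro _
          simp [fromBlocks_multiply, fromBlocks_neg]
      · refine Fin.lastCases ?_ (fun j => ?_) j
        · intro _
          simp [fromBlocks_multiply, fromBlocks_neg]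
        · intro h
          have hij : i ≠ j := fun hh => h (by rw [hh])
          simp [fromBlocks_multiply, fromBlocks_neg, h2 i j hij]
    · intro i j
      refine Fin.lastCases ?_ (fun i => ?_) i
      · refine Fin.lastCases ?_ (fun j => ?_) j
        · simp [fromBlocks_multiply, fromBlocks_neg]
        · simp [fromBlocks_multiply, fromBlocks_neg]
      · refine Fin.lastCases ?_ (fun j => ?_) j
        · simp [fromBlocks_multiply, fromBlocks_neg]
        · simp [fromBlocks_multiply, fromBlocks_neg, h3 i j]
    · intro z hE hF'
      obtain ⟨a, b, c, d, rfl⟩ : ∃ a b c d : Matrix I I ℝ, z = fromBlocks a b c d :=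
        ⟨z.toBlocks₁₁, z.toBlocks₁₂, z.toBlocks₂₁, z.toBlocks₂₂, (fromBlocks_toBlocks z).symm⟩
      have e1 := hE (Fin.last N)
      have e2 := hF' (Fin.last N)
      simp only [Fin.snoc_last, fromBlocks_multiply, mul_zero, mul_one, zero_mul, one_mul,
        zero_add, add_zero, mul_neg, neg_mul, fromBlocks_inj] at e1 e2
      obtain ⟨e11, e12, e13, e14⟩ := e1
      obtain ⟨e21, e22, e23, e24⟩ := e2
      -- b = c, a = d, -b = c
      have hb : b = 0 := by
        have : b = -b := by rw [e21]; exact e11
        ext i j
        have := congrFun (congrFun this i) j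
        simp only [Matrix.neg_apply, Matrix.zero_apply] at this ⊢
        linarith
      have hc : c = 0 := by rw [← e11, hb]
      subst hb hc
      have had : a = d := e12
      subst had
      obtain ⟨s, hs⟩ := h4 a (fun i => by
        have := hE i.castSucc
        simp only [Fin.snoc_castSucc, fromBlocks_multiply, mul_zero, zero_mul,
          zero_add, add_zero, mul_neg, neg_mul, fromBlocks_inj] at this
        exact this.1) (fun i => by
        have := hF' i.castSucc
        simp only [Fin.snoc_castSucc, fromBlocks_multiply, mul_zero, zero_mul,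
          zero_add, add_zero, mul_neg, neg_mul, fromBlocks_inj] at this
        exact this.1)
      refine ⟨s, ?_⟩
      rw [hs]
      rw [← fromBlocks_one, fromBlocks_smul]
      simp

section Inter

set_option linter.unusedSectionVars false

variable {A : Type*} [Ring A] [Algebra ℝ A]

/-- The averaged intertwiner between two Clifford systems. -/
noncomputable def inter (f e : ℕ → A) : ℕ → A
  | 0 => 1
  | k + 1 => (2⁻¹ : ℝ) • (inter f e k + f k * inter f e k * e k)

/-- A Clifford system of size `N`. -/
structure IsCl (N : ℕ) (f : ℕ → A) : Prop where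
  sq : ∀ i < N, f i * f i = 1
  anti : ∀ i < N, ∀ j < N, i ≠ j → f i * f j = - (f j * f i)

theorem inter_spec {N : ℕ} {f e : ℕ → A} (hf : IsCl N f) (he : IsCl N e) :
    ∀ k ≤ N, ∀ j < k, f j * inter f e k = inter f e k * e j := by
  intro k
  induction k with
  | zero => intro _ j hj; omega
  | succ k ih =>
    intro hk j hj
    rw [inter, mul_smul_comm, smul_mul_assoc]
    congr 1
    rcases Nat.lt_succ_iff_lt_or_eq.1 hj with h | h
    · have ihj := ih (by omega) j h
      have a1 : f j * (f k * inter f e k * e k) = f k * inter f e k * e k * e j := by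
        calc f j * (f k * inter f e k * e k) = (f j * f k) * inter f e k * e k := by
              simp only [mul_assoc]
          _ = - (f k * (f j * inter f e k) * e k) := by
              rw [hf.anti j (by omega) k (by omega) (by omega)]
              simp only [neg_mul, mul_assoc]
          _ = - (f k * inter f e k * (e j * e k)) := by
              rw [ihj]; simp only [mul_assoc]
          _ = f k * inter f e k * e k * e j := by
              rw [he.anti j (by omega) k (by omega) (by omega)]
              simp only [mul_neg, neg_neg, mul_assoc]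
      rw [mul_add, add_mul, ihj, a1]
    · subst h
      have a1 : f j * (f j * inter f e j * e j) = inter f e j * e j := by
        calc f j * (f j * inter f e j * e j) = (f j * f j) * inter f e j * e j := by
              simp only [mul_assoc]
          _ = inter f e j * e j := by rw [hf.sq j (by omega), one_mul]
      have a2 : f j * inter f e j * e j * e j = f j * inter f e j := by
        rw [mul_assoc, he.sq j (by omega), mul_one]
      rw [mul_add, add_mul, a1, a2, add_comm]

theorem inter_self {N : ℕ} {f : ℕ → A} (hf : IsCl N f) :
    ∀ k ≤ N, inter f f k = 1 := by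
  intro k
  induction k with
  | zero => intro _; rfl
  | succ k ih =>
    intro hk
    rw [inter, ih (by omega), mul_one, hf.sq k (by omega), ← two_smul ℝ (1 : A), smul_smul]
    norm_num

theorem inter_comm {f e : ℕ → A} (F : A) {N : ℕ} (hf : ∀ k < N, f k * F = - (F * f k))
    (he : ∀ k < N, e k * F = - (F * e k)) :
    ∀ k ≤ N, inter f e k * F = F * inter f e k := by
  intro k
  induction k with
  | zero => intro _; simp [inter]
  | succ k ih =>
    intro hk
    rw [inter, mul_smul_comm, smul_mul_assoc]
    congr 1
    have h := ih (by omega)
    have a1 : f k * inter f e k * e k * F = F * (f k * inter f e k * e k) := by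
      calc f k * inter f e k * e k * F = f k * inter f e k * (e k * F) := by
            simp only [mul_assoc]
        _ = - (f k * (inter f e k * F) * e k) := by
            rw [he k (by omega)]; simp only [mul_neg, mul_assoc]
        _ = - ((f k * F) * inter f e k * e k) := by
            rw [h]; simp only [mul_assoc]
        _ = F * (f k * inter f e k * e k) := by
            rw [hf k (by omega)]; simp only [neg_mul, neg_neg, mul_assoc]
    rw [add_mul, mul_add, h, a1]

/-- The partial products of a Clifford system. -/
def vol (e : ℕ → A) : ℕ → A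
  | 0 => 1
  | k + 1 => vol e k * e k

theorem vol_ge {N : ℕ} {e : ℕ → A} (he : IsCl N e) :
    ∀ k ≤ N, ∀ j, k ≤ j → j < N → e j * vol e k = (-1 : A) ^ k * (vol e k * e j) := by
  intro k
  induction k with
  | zero => intro _ j _ _; simp [vol]
  | succ k ih =>
    intro hk j hj hjN
    have h := ih (by omega) j (by omega) hjN
    calc e j * vol e (k + 1) = (e j * vol e k) * e k := by rw [vol, mul_assoc]
      _ = (-1 : A) ^ k * (vol e k * (e j * e k)) := by rw [h]; simp only [mul_assoc]
      _ = (-1 : A) ^ (k + 1) * (vol e (k + 1) * e j) := by
          rw [he.anti j (by omega) k (by omega) (by omega), vol, pow_succ]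
          simp only [mul_neg, mul_one, neg_mul, mul_assoc]

theorem vol_lt {N : ℕ} {e : ℕ → A} (he : IsCl N e) :
    ∀ k ≤ N, ∀ j, j < k → e j * vol e k = (-1 : A) ^ (k + 1) * (vol e k * e j) := by
  intro k
  induction k with
  | zero => intro _ j hj; omega
  | succ k ih =>
    intro hk j hj
    rcases Nat.lt_succ_iff_lt_or_eq.1 hj with h | h
    · have ihj := ih (by omega) j h
      calc e j * vol e (k + 1) = (e j * vol e k) * e k := by rw [vol, mul_assoc]
        _ = (-1 : A) ^ (k + 1) * (vol e k * (e j * e k)) := by rw [ihj]; simp only [mul_assoc]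
        _ = (-1 : A) ^ (k + 1 + 1) * (vol e (k + 1) * e j) := by
            rw [he.anti j (by omega) k (by omega) (by omega), vol, pow_succ (-1 : A) (k + 1)]
            simp only [mul_neg, mul_one, neg_mul, mul_assoc]
    · subst h
      have := vol_ge he j (by omega) j le_rfl (by omega)
      calc e j * vol e (j + 1) = (e j * vol e j) * e j := by rw [vol, mul_assoc]
        _ = (-1 : A) ^ j * (vol e j * (e j * e j)) := by rw [this]; simp only [mul_assoc]
        _ = (-1 : A) ^ (j + 1 + 1) * (vol e (j + 1) * e j) := by
            rw [vol, pow_succ, pow_succ]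
            simp only [mul_neg, mul_one, neg_neg, mul_assoc]

theorem vol_sq {N : ℕ} {e : ℕ → A} (he : IsCl N e) :
    ∀ k ≤ N, vol e k * vol e k = (-1 : A) ^ (k * (k - 1) / 2) := by
  intro k
  induction k with
  | zero => intro _; simp [vol]
  | succ k ih =>
    intro hk
    have h := ih (by omega)
    have hc := vol_ge he k (by omega) k le_rfl (by omega)
    have hcomm : Commute ((-1 : A) ^ k) (vol e k) := (Commute.neg_one_left _).pow_left k
    calc vol e (k + 1) * vol e (k + 1) = vol e k * (e k * vol e k) * e k := by
          rw [vol]; simp only [mul_assoc]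
      _ = (-1 : A) ^ k * (vol e k * vol e k) * (e k * e k) := by
          rw [hc, ← mul_assoc (vol e k) ((-1 : A) ^ k), ← hcomm.eq]; simp only [mul_assoc]
      _ = (-1 : A) ^ ((k + 1) * (k + 1 - 1) / 2) := by
          rw [h, he.sq k (by omega), mul_one, ← pow_add]
          congr 1
          have : (k + 1) * (k + 1 - 1) = k * (k - 1) + 2 * k := by
            rcases k with _ | k
            · rfl
            · simp only [Nat.add_sub_cancel]; ring
          rw [this, Nat.add_mul_div_left _ _ (by norm_num : 0 < 2), add_comm]

end Inter

end Pool.Agent.R786.Cliff
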