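import Pool.Agent.R786.OddGL

set_option autoImplicit false

/-!
Groups acting properly and cocompactly on `SL(2,ℂ)` which act properly discontinuously by
isometries on the pseudo-hyperbolic space `H^{N,N-1}`: then `4 ∣ N`.
-/

namespace Pool.Agent.R786.Kl

open Matrix Topology

/-- the vector space of signature `(N,N)`. -/
abbrev V (N : ℕ) : Type := Fin N ⊕ Fin N → ℝ

/-- the quadratic form of signature `(N,N)`. -/
def qf {N : ℕ} (x : V N) : ℝ := ∑ i, x (Sum.inl i) ^ 2 - ∑ i, x (Sum.inr i) ^ 2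

/-- the Euclidean quadratic form. -/
def en {N : ℕ} (x : V N) : ℝ := ∑ i, x (Sum.inl i) ^ 2 + ∑ i, x (Sum.inr i) ^ 2

variable {N : ℕ}

theorem en_nonneg (x : V N) : 0 ≤ en x :=
  add_nonneg (Finset.sum_nonneg fun _ _ => sq_nonneg _) (Finset.sum_nonneg fun _ _ => sq_nonneg _)

theorem sq_le_en (x : V N) (i : Fin N ⊕ Fin N) : x i ^ 2 ≤ en x := by
  rcases i with i | i
  · have h1 : x (Sum.inl i) ^ 2 ≤ ∑ i, x (Sum.inl i) ^ 2 :=
      Finset.single_le_sum (f := fun i => x (Sum.inl i) ^ 2) (fun _ _ => sq_nonneg _)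
        (Finset.mem_univ i)
    have h2 : 0 ≤ ∑ i, x (Sum.inr i) ^ 2 := Finset.sum_nonneg fun _ _ => sq_nonneg _
    unfold en; linarith
  · have h1 : x (Sum.inr i) ^ 2 ≤ ∑ i, x (Sum.inr i) ^ 2 :=
      Finset.single_le_sum (f := fun i => x (Sum.inr i) ^ 2) (fun _ _ => sq_nonneg _)
        (Finset.mem_univ i)
    have h2 : 0 ≤ ∑ i, x (Sum.inl i) ^ 2 := Finset.sum_nonneg fun _ _ => sq_nonneg _
    unfold en; linarith

theorem en_pos {x : V N} (hx : x ≠ 0) : 0 < en x := by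
  obtain ⟨i, hi⟩ : ∃ i, x i ≠ 0 := by
    by_contra h; push Not at h; exact hx (funext h)
  exact lt_of_lt_of_le (by positivity) (sq_le_en x i)

theorem en_smul (c : ℝ) (x : V N) : en (c • x) = c ^ 2 * en x := by
  simp only [en, Pi.smul_apply, smul_eq_mul, mul_pow, mul_add, Finset.mul_sum]

theorem qf_smul (c : ℝ) (x : V N) : qf (c • x) = c ^ 2 * qf x := by
  simp only [qf, Pi.smul_apply, smul_eq_mul, mul_pow, mul_sub, Finset.mul_sum]

/-- Jensen for the square function. -/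
theorem sq_jensen {ι : Type*} (T : Finset ι) (lam : ι → ℝ) (h0 : ∀ i ∈ T, 0 ≤ lam i)
    (h1 : ∑ i ∈ T, lam i = 1) (z : ι → ℝ) :
    (∑ i ∈ T, lam i * z i) ^ 2 ≤ ∑ i ∈ T, lam i * z i ^ 2 := by
  have h := (convexOn_pow (𝕜 := ℝ) 2)
  have := (Even.convexOn_pow (𝕜 := ℝ) (n := 2) (by norm_num)).map_sum_le (t := T) (w := lam)
    (p := z) h0 h1 (fun i _ => Set.mem_univ _)
  simpa only [smul_eq_mul] using this

theorem en_jensen {ι : Type*} (T : Finset ι) (lam : ι → ℝ) (h0 : ∀ i ∈ T, 0 ≤ lam i)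
    (h1 : ∑ i ∈ T, lam i = 1) (z : ι → V N) :
    en (∑ i ∈ T, lam i • z i) ≤ ∑ i ∈ T, lam i * en (z i) := by
  have e : ∀ k, (∑ i ∈ T, lam i • z i) k = ∑ i ∈ T, lam i * z i k := by
    intro k; simp only [Finset.sum_apply, Pi.smul_apply, smul_eq_mul]
  have r : ∑ i ∈ T, lam i * en (z i) = ∑ k, ∑ i ∈ T, lam i * z i (Sum.inl k) ^ 2 +
      ∑ k, ∑ i ∈ T, lam i * z i (Sum.inr k) ^ 2 := by
    rw [Finset.sum_comm, Finset.sum_comm (f := fun k i => lam i * z i (Sum.inr k) ^ 2),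
      ← Finset.sum_add_distrib]
    refine Finset.sum_congr rfl fun i _ => ?_
    rw [en, mul_add, Finset.mul_sum, Finset.mul_sum]
  rw [r, en]
  simp only [e]
  exact add_le_add (Finset.sum_le_sum fun k _ => sq_jensen T lam h0 h1 _)
    (Finset.sum_le_sum fun k _ => sq_jensen T lam h0 h1 _)

theorem qf_jensen {ι : Type*} (T : Finset ι) (lam : ι → ℝ) (h0 : ∀ i ∈ T, 0 ≤ lam i)
    (h1 : ∑ i ∈ T, lam i = 1) (v : ι → Fin N → ℝ) (w : Fin N → ℝ) :
    qf (∑ i ∈ T, lam i • (Sum.elim (v i) w : V N)) ≤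
      ∑ i ∈ T, lam i * qf (Sum.elim (v i) w : V N) := by
  have e : ∀ k, (∑ i ∈ T, lam i • (Sum.elim (v i) w : V N)) (Sum.inl k) =
      ∑ i ∈ T, lam i * v i k := by
    intro k; simp only [Finset.sum_apply, Pi.smul_apply, smul_eq_mul, Sum.elim_inl]
  have e' : ∀ k, (∑ i ∈ T, lam i • (Sum.elim (v i) w : V N)) (Sum.inr k) = w k := by
    intro k
    simp only [Finset.sum_apply, Pi.smul_apply, smul_eq_mul, Sum.elim_inr]
    rw [← Finset.sum_mul, h1, one_mul]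
  have r : ∑ i ∈ T, lam i * qf (Sum.elim (v i) w : V N) =
      ∑ k, ∑ i ∈ T, lam i * v i k ^ 2 - ∑ k, w k ^ 2 := by
    rw [Finset.sum_comm]
    have : ∑ k, w k ^ 2 = ∑ i ∈ T, lam i * ∑ k, w k ^ 2 := by rw [← Finset.sum_mul, h1, one_mul]
    rw [this, ← Finset.sum_sub_distrib]
    refine Finset.sum_congr rfl fun i _ => ?_
    rw [qf, mul_sub, Finset.mul_sum]
    simp only [Sum.elim_inl, Sum.elim_inr]
  rw [r, qf]
  simp only [e, e']
  exact sub_le_sub_right (Finset.sum_le_sum fun k _ => sq_jensen T lam h0 h1 _) _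

/-- The image of the standard negative definite plane is a graph. -/
theorem exists_graph (f : V N ≃ₗ[ℝ] V N) (hf : ∀ x, qf (f x) = qf x) :
    ∃ L : Matrix (Fin N) (Fin N) ℝ, ∀ w : Fin N → ℝ, ∃ w' : Fin N → ℝ,
      f (Sum.elim 0 w') = Sum.elim (L *ᵥ w) w := by
  let J : (Fin N → ℝ) →ₗ[ℝ] V N :=
    { toFun := fun w => Sum.elim 0 w
      map_add' := by intro a b; funext i; rcases i with i | i <;> simp
      map_smul' := by intro a b; funext i; rcases i with i | i <;> simp }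
  let D : (Fin N → ℝ) →ₗ[ℝ] (Fin N → ℝ) :=
    (LinearMap.funLeft ℝ ℝ Sum.inr) ∘ₗ f.toLinearMap ∘ₗ J
  let B : (Fin N → ℝ) →ₗ[ℝ] (Fin N → ℝ) :=
    (LinearMap.funLeft ℝ ℝ Sum.inl) ∘ₗ f.toLinearMap ∘ₗ J
  have hD : ∀ w i, D w i = f (Sum.elim 0 w) (Sum.inr i) := fun w i => rfl
  have hB : ∀ w i, B w i = f (Sum.elim 0 w) (Sum.inl i) := fun w i => rfl
  have hinj : Function.Injective D := by
    rw [← LinearMap.ker_eq_bot, LinearMap.ker_eq_bot']
    intro w hw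
    have h1 := hf (Sum.elim 0 w)
    have h2 : qf (f (Sum.elim 0 w)) = ∑ i, f (Sum.elim 0 w) (Sum.inl i) ^ 2 := by
      rw [qf]
      have : ∀ i, f (Sum.elim 0 w) (Sum.inr i) = 0 := by
        intro i; rw [← hD, hw]; rfl
      simp [this]
    have h3 : qf (Sum.elim 0 w : V N) = - ∑ i, w i ^ 2 := by
      simp [qf]
    rw [h2, h3] at h1
    have h4 : 0 ≤ ∑ i, f (Sum.elim 0 w) (Sum.inl i) ^ 2 := Finset.sum_nonneg fun _ _ => sq_nonneg _
    have h5 : ∑ i, w i ^ 2 = 0 := le_antisymm (by linarith) (Finset.sum_nonneg fun _ _ => sq_nonneg _)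
    rw [Finset.sum_eq_zero_iff_of_nonneg (fun _ _ => sq_nonneg _)] at h5
    funext i
    exact pow_eq_zero_iff (two_ne_zero) |>.1 (h5 i (Finset.mem_univ i))
  let De : (Fin N → ℝ) ≃ₗ[ℝ] (Fin N → ℝ) := LinearEquiv.ofInjectiveEndo D hinj
  refine ⟨LinearMap.toMatrix' (B ∘ₗ De.symm.toLinearMap), fun w => ⟨De.symm w, ?_⟩⟩
  have h1 : D (De.symm w) = w := by
    have : De (De.symm w) = w := De.apply_symm_apply w
    exact this
  funext i
  rcases i with i | i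
  · rw [← hB, Sum.elim_inl, LinearMap.toMatrix'_mulVec]
    rfl
  · rw [← hD, Sum.elim_inr, h1]

variable {Γ : Type*} [Group Γ]

/-- A convex combination of comparable negative planes is a comparable negative plane. -/
theorem cone_bound (φ : Γ →* (V N ≃ₗ[ℝ] V N)) (hφ : ∀ γ x, qf (φ γ x) = qf x)
    (L : Γ → Matrix (Fin N) (Fin N) ℝ)
    (hL : ∀ γ w, ∃ w' : Fin N → ℝ, φ γ (Sum.elim 0 w') = Sum.elim (L γ *ᵥ w) w)
    (T : Finset Γ) (c : Γ → ℝ) (hc : ∀ γ, 0 ≤ c γ) (hs : 0 < ∑ γ ∈ T, c γ) (M : ℝ)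
    (γ₀ : Γ) (hM : ∀ γ ∈ T, 0 < c γ → ∀ y, en (φ (γ₀⁻¹ * γ) y) ≤ M * en y)
    (w : Fin N → ℝ) :
    en ((φ γ₀)⁻¹ (Sum.elim (((∑ γ ∈ T, c γ)⁻¹ • ∑ γ ∈ T, c γ • L γ) *ᵥ w) w)) ≤
      - (M * qf (Sum.elim (((∑ γ ∈ T, c γ)⁻¹ • ∑ γ ∈ T, c γ • L γ) *ᵥ w) w : V N)) ∨ M < 0 := by
  by_cases hM0 : M < 0
  · exact Or.inr hM0
  left
  push Not at hM0
  set s := ∑ γ ∈ T, c γ with hsdef
  set lam : Γ → ℝ := fun γ => c γ / s with hlam
  have l0 : ∀ γ ∈ T, 0 ≤ lam γ := fun γ _ => div_nonneg (hc γ) hs.le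
  have l1 : ∑ γ ∈ T, lam γ = 1 := by
    rw [hlam, ← Finset.sum_div, ← hsdef, div_self hs.ne']
  set x : Γ → V N := fun γ => Sum.elim (L γ *ᵥ w) w with hx
  have hsum : (Sum.elim ((s⁻¹ • ∑ γ ∈ T, c γ • L γ) *ᵥ w) w : V N) = ∑ γ ∈ T, lam γ • x γ := by
    funext i
    rcases i with i | i
    · simp only [Sum.elim_inl, Finset.sum_apply, Pi.smul_apply, hx, smul_eq_mul, hlam]
      rw [Matrix.smul_mulVec, Matrix.sum_mulVec]
      simp only [Matrix.smul_mulVec, Pi.smul_apply, Finset.sum_apply, smul_eq_mul, Finset.mul_sum]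
      refine Finset.sum_congr rfl fun γ _ => ?_
      rw [div_eq_inv_mul, mul_assoc]
    · simp only [Sum.elim_inr, Finset.sum_apply, Pi.smul_apply, hx, smul_eq_mul]
      rw [← Finset.sum_mul, l1, one_mul]
  rw [hsum, map_sum]
  simp only [map_smul]
  have a1 := en_jensen T lam l0 l1 (fun γ => (φ γ₀)⁻¹ (x γ))
  have a2 : ∑ γ ∈ T, lam γ * en ((φ γ₀)⁻¹ (x γ)) ≤ ∑ γ ∈ T, lam γ * (- (M * qf (x γ))) := by
    refine Finset.sum_le_sum fun γ hγ => ?_
    rcases (hc γ).eq_or_lt with h | h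
    · have : lam γ = 0 := by rw [hlam]; simp only; rw [← h, zero_div]
      rw [this, zero_mul, zero_mul]
    · refine mul_le_mul_of_nonneg_left ?_ (l0 γ hγ)
      obtain ⟨w', hw'⟩ := hL γ w
      have b1 : (φ γ₀)⁻¹ (x γ) = φ (γ₀⁻¹ * γ) (Sum.elim 0 w') := by
        rw [map_mul, map_inv]
        show _ = (φ γ₀)⁻¹ (φ γ (Sum.elim 0 w'))
        rw [hw']
      have b2 : qf (x γ) = qf (Sum.elim 0 w' : V N) := by
        rw [hx]; simp only; rw [← hw', hφ]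
      have b3 : qf (Sum.elim 0 w' : V N) = - en (Sum.elim 0 w' : V N) := by
        simp [qf, en]
      rw [b1, b2, b3]
      have := hM γ hγ h (Sum.elim 0 w')
      linarith
  have a3 := qf_jensen T lam l0 l1 (fun γ => L γ *ᵥ w) w
  have a4 : ∑ γ ∈ T, lam γ * (- (M * qf (x γ))) = - (M * ∑ γ ∈ T, lam γ * qf (x γ)) := by
    rw [Finset.mul_sum, ← Finset.sum_neg_distrib]
    refine Finset.sum_congr rfl fun γ _ => ?_
    ring
  have a5 : M * qf (∑ γ ∈ T, lam γ • x γ) ≤ M * ∑ γ ∈ T, lam γ * qf (x γ) :=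
    mul_le_mul_of_nonneg_left a3 hM0
  linarith [a1, a2, a4, a5]

end Pool.Agent.R786.Kl
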