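import Pool.Agent.R786.Klein

set_option autoImplicit false

/-!
The main argument: a group with a proper cocompact homomorphism to `SL(2,ℂ)` which acts properly
discontinuously by isometries on `H^{N,N-1}` exists only for `4 ∣ N`.
-/

namespace Pool.Agent.R786.Kl

open Matrix Topology

/-- the group `SL(2,ℂ)`. -/
abbrev G : Type := Matrix.SpecialLinearGroup (Fin 2) ℂ

/-- entries bounded by `R`. -/
def Ent (g : G) (R : ℝ) : Prop := ∀ i j, ‖(g : Matrix (Fin 2) (Fin 2) ℂ) i j‖ ≤ R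

theorem Ent.nonneg {g : G} {R : ℝ} (h : Ent g R) : 0 ≤ R := le_trans (norm_nonneg _) (h 0 0)

theorem Ent.mul {g h : G} {R S : ℝ} (hg : Ent g R) (hh : Ent h S) : Ent (g * h) (2 * R * S) := by
  intro i j
  rw [Matrix.SpecialLinearGroup.coe_mul, Matrix.mul_apply, Fin.sum_univ_two]
  refine (norm_add_le _ _).trans ?_
  rw [norm_mul, norm_mul]
  have h1 := mul_le_mul (hg i 0) (hh 0 j) (norm_nonneg _) hg.nonneg
  have h2 := mul_le_mul (hg i 1) (hh 1 j) (norm_nonneg _) hg.nonneg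
  linarith

theorem Ent.inv {g : G} {R : ℝ} (hg : Ent g R) : Ent g⁻¹ R := by
  intro i j
  rw [Matrix.SpecialLinearGroup.coe_inv, Matrix.adjugate_fin_two]
  fin_cases i <;> fin_cases j <;> simp [norm_neg, hg 0 0, hg 0 1, hg 1 0, hg 1 1]

theorem Ent.mono {g : G} {R S : ℝ} (hg : Ent g R) (h : R ≤ S) : Ent g S :=
  fun i j => (hg i j).trans h

theorem Ent.trace {g : G} {R : ℝ} (hg : Ent g R) :
    ‖(g : Matrix (Fin 2) (Fin 2) ℂ) 0 0 + (g : Matrix (Fin 2) (Fin 2) ℂ) 1 1‖ ≤ 2 * R := by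
  refine (norm_add_le _ _).trans ?_
  linarith [hg 0 0, hg 1 1]

/-- points of a large sphere in `SL(2,ℂ)`, in polar coordinates. -/
noncomputable def pt (s t θ : ℝ) : G :=
  ⟨!![((√(1 + s ^ 2) + s * Real.cos t : ℝ) : ℂ),
      ((s * Real.sin t : ℝ) : ℂ) * (((Real.cos θ : ℝ) : ℂ) - Complex.I * ((Real.sin θ : ℝ) : ℂ));
      ((s * Real.sin t : ℝ) : ℂ) * (((Real.cos θ : ℝ) : ℂ) + Complex.I * ((Real.sin θ : ℝ) : ℂ)),
      ((√(1 + s ^ 2) - s * Real.cos t : ℝ) : ℂ)], by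
    rw [Matrix.det_fin_two_of]
    have h1 : √(1 + s ^ 2) ^ 2 = 1 + s ^ 2 := Real.sq_sqrt (by positivity)
    have h2 := Real.sin_sq_add_cos_sq t
    have h3 := Real.sin_sq_add_cos_sq θ
    have h4 : (√(1 + s ^ 2) + s * Real.cos t) * (√(1 + s ^ 2) - s * Real.cos t) -
        (s * Real.sin t) ^ 2 * (Real.sin θ ^ 2 + Real.cos θ ^ 2) = 1 := by
      rw [h3]; nlinarith [h1, h2]
    have h5 := congrArg (fun x : ℝ => (x : ℂ)) h4
    simp only [Complex.ofReal_sub, Complex.ofReal_mul, Complex.ofReal_add, Complex.ofReal_pow,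
      Complex.ofReal_one] at h5
    simp only [Complex.ofReal_sub, Complex.ofReal_mul, Complex.ofReal_add]
    linear_combination h5 + (s:ℂ) ^ 2 * (Real.sin t : ℂ) ^ 2 * (Real.sin θ : ℂ) ^ 2 *
      (Complex.I_sq)⟩

theorem pt_coe (s t θ : ℝ) : ((pt s t θ : G) : Matrix (Fin 2) (Fin 2) ℂ) =
    !![((√(1 + s ^ 2) + s * Real.cos t : ℝ) : ℂ),
      ((s * Real.sin t : ℝ) : ℂ) * (((Real.cos θ : ℝ) : ℂ) - Complex.I * ((Real.sin θ : ℝ) : ℂ));
      ((s * Real.sin t : ℝ) : ℂ) * (((Real.cos θ : ℝ) : ℂ) + Complex.I * ((Real.sin θ : ℝ) : ℂ)),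
      ((√(1 + s ^ 2) - s * Real.cos t : ℝ) : ℂ)] := rfl

theorem pt_per (s t θ : ℝ) : pt s t (θ + 2 * Real.pi) = pt s t θ := by
  apply Subtype.ext
  show ((pt s t (θ + 2 * Real.pi) : G) : Matrix (Fin 2) (Fin 2) ℂ) = (pt s t θ : G)
  rw [pt_coe, pt_coe, Real.cos_add_two_pi, Real.sin_add_two_pi]

theorem pt_anti (s t θ : ℝ) : pt s (Real.pi - t) (θ + Real.pi) = (pt s t θ)⁻¹ := by
  apply Subtype.ext
  show ((pt s (Real.pi - t) (θ + Real.pi) : G) : Matrix (Fin 2) (Fin 2) ℂ) = ((pt s t θ)⁻¹ : G)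
  rw [Matrix.SpecialLinearGroup.coe_inv, pt_coe, pt_coe, Matrix.adjugate_fin_two, Real.cos_add_pi,
    Real.sin_add_pi, Real.cos_pi_sub, Real.sin_pi_sub]
  ext i j
  fin_cases i <;> fin_cases j <;> simp <;> ring

theorem pt_zero (s θ : ℝ) : pt s 0 θ = pt s 0 0 := by
  apply Subtype.ext
  show ((pt s 0 θ : G) : Matrix (Fin 2) (Fin 2) ℂ) = (pt s 0 0 : G)
  rw [pt_coe, pt_coe]; simp

theorem pt_pi (s θ : ℝ) : pt s Real.pi θ = pt s Real.pi 0 := by
  apply Subtype.ext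
  show ((pt s Real.pi θ : G) : Matrix (Fin 2) (Fin 2) ℂ) = (pt s Real.pi 0 : G)
  rw [pt_coe, pt_coe]; simp

theorem pt_cont (s : ℝ) (i j : Fin 2) :
    Continuous fun p : ℝ × ℝ => ((pt s p.1 p.2 : G) : Matrix (Fin 2) (Fin 2) ℂ) i j := by
  simp only [pt_coe]
  fin_cases i <;> fin_cases j <;> simp <;> fun_prop

theorem pt_ent (s : ℝ) (hs : 0 ≤ s) (t θ : ℝ) : Ent (pt s t θ) (√(1 + s ^ 2) + s) := by
  have h0 : 0 ≤ √(1 + s ^ 2) := Real.sqrt_nonneg _
  have hc := Real.abs_cos_le_one t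
  have hsn := Real.abs_sin_le_one t
  have e1 : ‖((√(1 + s ^ 2) + s * Real.cos t : ℝ) : ℂ)‖ ≤ √(1 + s ^ 2) + s := by
    rw [Complex.norm_real, Real.norm_eq_abs]
    refine (abs_add_le _ _).trans ?_
    rw [abs_of_nonneg h0, abs_mul, abs_of_nonneg hs]
    nlinarith
  have e2 : ‖((√(1 + s ^ 2) - s * Real.cos t : ℝ) : ℂ)‖ ≤ √(1 + s ^ 2) + s := by
    rw [Complex.norm_real, Real.norm_eq_abs]
    refine (abs_sub _ _).trans ?_
    rw [abs_of_nonneg h0, abs_mul, abs_of_nonneg hs]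
    nlinarith
  have e3 : ∀ z : ℂ, ‖z‖ = 1 → ‖((s * Real.sin t : ℝ) : ℂ) * z‖ ≤ √(1 + s ^ 2) + s := by
    intro z hz
    rw [norm_mul, hz, mul_one, Complex.norm_real, Real.norm_eq_abs, abs_mul, abs_of_nonneg hs]
    nlinarith
  have e4 : ‖(((Real.cos θ : ℝ) : ℂ) - Complex.I * ((Real.sin θ : ℝ) : ℂ))‖ = 1 := by
    rw [← Real.sqrt_one, Complex.norm_eq_sqrt_sq_add_sq]
    congr 1
    simp only [Complex.sub_re, Complex.sub_im, Complex.mul_re, Complex.mul_im, Complex.I_re,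
      Complex.I_im, Complex.ofReal_re, Complex.ofReal_im]
    nlinarith [Real.sin_sq_add_cos_sq θ]
  have e5 : ‖(((Real.cos θ : ℝ) : ℂ) + Complex.I * ((Real.sin θ : ℝ) : ℂ))‖ = 1 := by
    rw [← Real.sqrt_one, Complex.norm_eq_sqrt_sq_add_sq]
    congr 1
    simp only [Complex.add_re, Complex.add_im, Complex.mul_re, Complex.mul_im, Complex.I_re,
      Complex.I_im, Complex.ofReal_re, Complex.ofReal_im]
    nlinarith [Real.sin_sq_add_cos_sq θ]
  intro i j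
  rw [pt_coe]
  fin_cases i <;> fin_cases j
  · exact e1
  · exact e3 _ e4
  · exact e3 _ e5
  · exact e2

theorem pt_trace (s t θ : ℝ) :
    ((pt s t θ * pt s t θ : G) : Matrix (Fin 2) (Fin 2) ℂ) 0 0 +
      ((pt s t θ * pt s t θ : G) : Matrix (Fin 2) (Fin 2) ℂ) 1 1 = ((2 + 4 * s ^ 2 : ℝ) : ℂ) := by
  rw [Matrix.SpecialLinearGroup.coe_mul, Matrix.mul_apply, Matrix.mul_apply, Fin.sum_univ_two,
    Fin.sum_univ_two, pt_coe]
  have h1 : √(1 + s ^ 2) ^ 2 = 1 + s ^ 2 := Real.sq_sqrt (by positivity)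
  have h2 := Real.sin_sq_add_cos_sq t
  have h3 := Real.sin_sq_add_cos_sq θ
  have h4 : (√(1 + s ^ 2) + s * Real.cos t) ^ 2 + (√(1 + s ^ 2) - s * Real.cos t) ^ 2 +
      2 * (s * Real.sin t) ^ 2 * (Real.sin θ ^ 2 + Real.cos θ ^ 2) = 2 + 4 * s ^ 2 := by
    rw [h3]; nlinarith [h1, h2]
  have h5 := congrArg (fun x : ℝ => (x : ℂ)) h4
  simp only [Complex.ofReal_sub, Complex.ofReal_mul, Complex.ofReal_add, Complex.ofReal_pow,
    Complex.ofReal_ofNat] at h5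
  simp only [Complex.ofReal_sub, Complex.ofReal_mul, Complex.ofReal_add, Matrix.of_apply,
    Matrix.cons_val', Matrix.cons_val_zero, Matrix.cons_val_one, Matrix.cons_val_fin_one,
    Complex.ofReal_pow, Complex.ofReal_ofNat]
  linear_combination h5 - 2 * (s:ℂ) ^ 2 * (Real.sin t : ℂ) ^ 2 * (Real.sin θ : ℂ) ^ 2 *
      (Complex.I_sq)

/-- a compactly supported weight. -/
noncomputable def chi (R : ℝ) (X : Matrix (Fin 2) (Fin 2) ℂ) : ℝ :=
  ∏ i, ∏ j, max 0 (R + 1 - ‖X i j‖)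

theorem chi_nonneg (R : ℝ) (X : Matrix (Fin 2) (Fin 2) ℂ) : 0 ≤ chi R X :=
  Finset.prod_nonneg fun _ _ => Finset.prod_nonneg fun _ _ => le_max_left _ _

theorem chi_pos {R : ℝ} {X : Matrix (Fin 2) (Fin 2) ℂ} (h : ∀ i j, ‖X i j‖ ≤ R) :
    0 < chi R X :=
  Finset.prod_pos fun i _ => Finset.prod_pos fun j _ =>
    lt_max_of_lt_right (by linarith [h i j])

theorem ent_of_chi {R : ℝ} {X : G} (h : 0 < chi R (X : Matrix (Fin 2) (Fin 2) ℂ)) :
    Ent X (R + 1) := by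
  intro i j
  by_contra hcon
  push Not at hcon
  have h1 : max 0 (R + 1 - ‖(X : Matrix (Fin 2) (Fin 2) ℂ) i j‖) = 0 :=
    max_eq_left (by linarith)
  have h2 : chi R (X : Matrix (Fin 2) (Fin 2) ℂ) = 0 :=
    Finset.prod_eq_zero (Finset.mem_univ i) (Finset.prod_eq_zero (Finset.mem_univ j) h1)
  rw [h2] at h
  exact lt_irrefl _ h

variable {N : ℕ}

theorem en_eq (x : V N) : en x = ∑ k, x k ^ 2 := by
  rw [en, Fintype.sum_sum_type]

theorem en_bound (f : V N →ₗ[ℝ] V N) : ∃ C : ℝ, ∀ y, en (f y) ≤ C * en y := by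
  refine ⟨∑ k, ∑ i, (f (Pi.single i 1) k) ^ 2, fun y => ?_⟩
  rw [en_eq, en_eq, Finset.sum_mul]
  refine Finset.sum_le_sum fun k _ => ?_
  have h1 : f y k = ∑ i, y i * f (Pi.single i 1) k := by
    have hy : y = ∑ i, y i • (Pi.single i (1:ℝ) : V N) := by
      funext j
      simp [Finset.sum_apply, Pi.single_apply]
    conv_lhs => rw [hy]
    rw [map_sum]
    simp [Finset.sum_apply]
  rw [h1]
  have := Finset.sum_mul_sq_le_sq_mul_sq Finset.univ y (fun i => f (Pi.single i 1) k)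
  linarith [mul_comm (∑ i, y i ^ 2) (∑ i, (f (Pi.single i 1) k) ^ 2)]

theorem grp1 {H : Type*} [Group H] (p a b : H) :
    p * p = ((b⁻¹ * p⁻¹)⁻¹ * (b⁻¹ * a)) * (a⁻¹ * p) := by group

theorem grp2 {H : Type*} [Group H] (p a : H) : a = p * (a⁻¹ * p)⁻¹ := by group

theorem grp3 {H : Type*} [Group H] (p a b : H) : b⁻¹ * a = (b⁻¹ * p) * (a⁻¹ * p)⁻¹ := by group

/-- **Core theorem.** -/
theorem core {Γ : Type*} [Group Γ] (ι : Γ →* G)
    (hfin : ∀ R : ℝ, {γ : Γ | Ent (ι γ) R}.Finite)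
    (hcov : ∃ R : ℝ, ∀ g : G, ∃ γ : Γ, Ent ((ι γ)⁻¹ * g) R)
    (φ : Γ →* (V N ≃ₗ[ℝ] V N)) (hφ : ∀ γ x, qf (φ γ x) = qf x)
    (hpd : ∀ K : Set (V N), IsCompact K → (∀ x ∈ K, qf x = -1) →
      {γ : Γ | ((fun x => φ γ x) '' K ∩ K).Nonempty}.Finite) : 4 ∣ N := by
  classical
  obtain ⟨R, hR⟩ := hcov
  have hR0 : 0 ≤ R := by
    obtain ⟨γ, hγ⟩ := hR 1
    exact hγ.nonneg
  choose L hL using fun γ => exists_graph (φ γ) (hφ γ)
  -- the distortion constant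
  obtain ⟨M, hM0, hM⟩ : ∃ M : ℝ, 0 < M ∧ ∀ γ : Γ, Ent (ι γ) (2 * (R + 1) * (R + 1)) →
      ∀ y, en (φ γ y) ≤ M * en y := by
    choose C hC using fun γ : Γ => en_bound ((φ γ).toLinearMap)
    obtain ⟨B, hB⟩ := ((hfin (2 * (R + 1) * (R + 1))).image C).bddAbove
    refine ⟨max B 1, by positivity, fun γ hγ y => ?_⟩
    refine (hC γ y).trans ?_
    refine mul_le_mul_of_nonneg_right ?_ (en_nonneg y)
    exact (hB ⟨γ, hγ, rfl⟩).trans (le_max_left _ _)
  -- the compact set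
  set K : Set (V N) := {y | qf y = -1 ∧ en y ≤ M} with hK
  have hqc : Continuous (fun y : V N => qf y) := by unfold qf; fun_prop
  have hec : Continuous (fun y : V N => en y) := by unfold en; fun_prop
  have hKc : IsCompact K := by
    refine IsCompact.of_isClosed_subset (s := Set.pi Set.univ (fun _ => Set.Icc (-(M+1)) (M+1)))
      (isCompact_univ_pi fun _ => isCompact_Icc) ?_ ?_
    · exact (isClosed_eq hqc continuous_const).inter (isClosed_le hec continuous_const)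
    · rintro y ⟨_, hy⟩ i _
      have h1 := (sq_le_en y i).trans hy
      constructor <;> nlinarith
  have hΦ := hpd K hKc (fun x hx => hx.1)
  set Φ : Set Γ := {γ : Γ | ((fun x => φ γ x) '' K ∩ K).Nonempty} with hΦdef
  obtain ⟨B, hB0, hB⟩ : ∃ B : ℝ, 0 ≤ B ∧ ∀ γ ∈ Φ, Ent (ι γ) B := by
    obtain ⟨B, hB⟩ := (hΦ.image (fun γ => ∑ i, ∑ j,
      ‖(ι γ : Matrix (Fin 2) (Fin 2) ℂ) i j‖)).bddAbove
    refine ⟨max B 0, le_max_right _ _, fun γ hγ i j => ?_⟩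
    refine le_trans ?_ ((hB ⟨γ, hγ, rfl⟩).trans (le_max_left _ _))
    refine le_trans ?_ (Finset.single_le_sum (f := fun i => ∑ j,
      ‖(ι γ : Matrix (Fin 2) (Fin 2) ℂ) i j‖) (fun _ _ => Finset.sum_nonneg fun _ _ =>
        norm_nonneg _) (Finset.mem_univ i))
    exact Finset.single_le_sum (f := fun j =>
      ‖(ι γ : Matrix (Fin 2) (Fin 2) ℂ) i j‖) (fun _ _ => norm_nonneg _) (Finset.mem_univ j)
  -- the radius
  set s : ℝ := 8 * (R + 1) * (R + 1) * B + 1 with hs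
  have hs1 : 1 ≤ s := by
    have : 0 ≤ 8 * (R + 1) * (R + 1) * B := by positivity
    linarith
  have hs0 : 0 ≤ s := by linarith
  set T : Finset Γ := (hfin (2 * (√(1 + s ^ 2) + s) * (R + 1))).toFinset with hT
  set c : ℝ → ℝ → Γ → ℝ := fun t θ γ => chi R (((ι γ)⁻¹ * pt s t θ : G) :
    Matrix (Fin 2) (Fin 2) ℂ) with hc
  have hc0 : ∀ t θ γ, 0 ≤ c t θ γ := fun t θ γ => chi_nonneg _ _
  have hcT : ∀ t θ γ, 0 < c t θ γ → γ ∈ T := by
    intro t θ γ h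
    have h1 := ent_of_chi h
    have h2 : Ent (ι γ) (2 * (√(1 + s ^ 2) + s) * (R + 1)) := by
      have h3 := (pt_ent s hs0 t θ).mul h1.inv
      rwa [← grp2] at h3
    rw [hT, Set.Finite.mem_toFinset]
    exact h2
  have hex : ∀ t θ, ∃ γ ∈ T, 0 < c t θ γ := by
    intro t θ
    obtain ⟨γ, hγ⟩ := hR (pt s t θ)
    have : 0 < c t θ γ := chi_pos hγ
    exact ⟨γ, hcT t θ γ this, this⟩
  have hsum : ∀ t θ, 0 < ∑ γ ∈ T, c t θ γ := by
    intro t θ
    obtain ⟨γ, hγ, h⟩ := hex t θ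
    exact Finset.sum_pos' (fun γ _ => hc0 t θ γ) ⟨γ, hγ, h⟩
  have hcc : ∀ γ, Continuous fun p : ℝ × ℝ => c p.1 p.2 γ := by
    intro γ
    simp only [hc, chi]
    refine continuous_finsetProd _ fun i _ => continuous_finsetProd _ fun j _ => ?_
    refine continuous_const.max (continuous_const.sub (Continuous.norm ?_))
    have : (fun p : ℝ × ℝ => (((ι γ)⁻¹ * pt s p.1 p.2 : G) : Matrix (Fin 2) (Fin 2) ℂ) i j) =
        fun p : ℝ × ℝ => ∑ k, (((ι γ)⁻¹ : G) : Matrix (Fin 2) (Fin 2) ℂ) i k *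
          ((pt s p.1 p.2 : G) : Matrix (Fin 2) (Fin 2) ℂ) k j := by
      funext p
      rw [Matrix.SpecialLinearGroup.coe_mul, Matrix.mul_apply]
    rw [this]
    exact continuous_finsetSum _ fun k _ => continuous_const.mul (pt_cont s k j)
  set W : ℝ → ℝ → Matrix (Fin N) (Fin N) ℝ := fun t θ =>
    (∑ γ ∈ T, c t θ γ)⁻¹ • ∑ γ ∈ T, c t θ γ • L γ with hW
  have hWc : Continuous fun p : ℝ × ℝ => W p.1 p.2 := by
    have c1 : Continuous fun p : ℝ × ℝ => (∑ γ ∈ T, c p.1 p.2 γ)⁻¹ :=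
      Continuous.inv₀ (continuous_finsetSum _ fun γ _ => hcc γ) fun p => (hsum _ _).ne'
    have c2 : Continuous fun p : ℝ × ℝ => ∑ γ ∈ T, c p.1 p.2 γ • L γ :=
      continuous_finsetSum _ fun γ _ => (hcc γ).smul continuous_const
    exact c1.smul c2
  have hWper : ∀ t θ, W t (θ + 2 * Real.pi) = W t θ := by
    intro t θ
    simp only [hW, hc, pt_per]
  -- the negative definite planes
  have hcone : ∀ t θ γ₀, 0 < c t θ γ₀ → ∀ w : Fin N → ℝ,
      en ((φ γ₀)⁻¹ (Sum.elim (W t θ *ᵥ w) w)) ≤ - (M * qf (Sum.elim (W t θ *ᵥ w) w : V N)) := by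
    intro t θ γ₀ h0 w
    rcases cone_bound φ hφ L hL T (c t θ) (hc0 t θ) (hsum t θ) M γ₀ (fun γ _ hγ y => by
      refine hM _ ?_ y
      have h1 := ent_of_chi h0
      have h2 := ent_of_chi hγ
      have h3 := h1.mul h2.inv
      rwa [← grp3, ← map_inv, ← map_mul] at h3) w with h | h
    · exact h
    · exact absurd h (not_lt.2 hM0.le)
  -- transversality
  have htrans : ∀ t θ, (W t θ - W (Real.pi - t) (θ + Real.pi)).det ≠ 0 := by
    intro t θ hdet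
    obtain ⟨w, hw0, hw⟩ := Matrix.exists_mulVec_eq_zero_iff.2 hdet
    have hww : W t θ *ᵥ w = W (Real.pi - t) (θ + Real.pi) *ᵥ w := by
      rw [Matrix.sub_mulVec, sub_eq_zero] at hw
      exact hw
    obtain ⟨γ₁, _, h1⟩ := hex t θ
    obtain ⟨γ₂, _, h2⟩ := hex (Real.pi - t) (θ + Real.pi)
    have k1 := hcone t θ γ₁ h1 w
    have k2 := hcone (Real.pi - t) (θ + Real.pi) γ₂ h2 w
    rw [← hww] at k2
    set x : V N := Sum.elim (W t θ *ᵥ w) w with hx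
    have hx0 : x ≠ 0 := by
      intro h
      apply hw0
      funext i
      have := congrFun h (Sum.inr i)
      simpa [hx] using this
    have hy0 : (φ γ₁)⁻¹ x ≠ 0 := by
      intro h
      apply hx0
      have : φ γ₁ ((φ γ₁)⁻¹ x) = φ γ₁ 0 := by rw [h]
      rw [map_zero] at this
      have h3 : φ γ₁ ((φ γ₁)⁻¹ x) = x := LinearEquiv.apply_symm_apply (φ γ₁) x
      rw [h3] at this
      exact this
    have hq : qf x < 0 := by
      have := en_pos hy0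
      nlinarith
    -- normalize
    set r : ℝ := √(- qf x) with hr
    have hr2 : r ^ 2 = - qf x := Real.sq_sqrt (by linarith)
    have hrpos : 0 < r := Real.sqrt_pos.2 (by linarith)
    have hKmem : ∀ γ : Γ, en ((φ γ)⁻¹ x) ≤ - (M * qf x) → (φ γ)⁻¹ (r⁻¹ • x) ∈ K := by
      intro γ hγ
      have hinvq : ∀ z : V N, qf ((φ γ)⁻¹ z) = qf z := by
        intro z
        have h3 : φ γ ((φ γ)⁻¹ z) = z := LinearEquiv.apply_symm_apply (φ γ) z
        have := hφ γ ((φ γ)⁻¹ z)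
        rw [h3] at this
        exact this.symm
      refine ⟨?_, ?_⟩
      · rw [hinvq, qf_smul]
        have : qf x = - r ^ 2 := by rw [hr2]; ring
        rw [this]
        field_simp
      · rw [map_smul, en_smul, inv_pow]
        rw [inv_mul_le_iff₀ (by positivity), hr2]
        linarith
    have m1 := hKmem γ₁ k1
    have m2 := hKmem γ₂ k2
    have hmem : γ₂⁻¹ * γ₁ ∈ Φ := by
      refine ⟨(φ γ₂)⁻¹ (r⁻¹ • x), ⟨(φ γ₁)⁻¹ (r⁻¹ • x), m1, ?_⟩, m2⟩
      show φ (γ₂⁻¹ * γ₁) ((φ γ₁)⁻¹ (r⁻¹ • x)) = (φ γ₂)⁻¹ (r⁻¹ • x)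
      rw [map_mul, map_inv]
      show (φ γ₂)⁻¹ (φ γ₁ ((φ γ₁)⁻¹ (r⁻¹ • x))) = (φ γ₂)⁻¹ (r⁻¹ • x)
      congr 1
      exact LinearEquiv.apply_symm_apply (φ γ₁) _
    have hBm := hB _ hmem
    have e1 := ent_of_chi h1
    have e2 := ent_of_chi h2
    rw [pt_anti] at e2
    have e3 : Ent (pt s t θ * pt s t θ) (2 * (2 * (R + 1) * B) * (R + 1)) := by
      have e5 := (e2.inv.mul hBm).mul e1
      rwa [map_mul, map_inv, ← grp1] at e5
    have e4 := e3.trace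
    rw [pt_trace, Complex.norm_real, Real.norm_eq_abs, abs_of_nonneg (by positivity)] at e4
    have : 4 * s ^ 2 ≤ 8 * (R + 1) * (R + 1) * B := by
      have : 2 * (2 * (2 * (R + 1) * B) * (R + 1)) = 8 * (R + 1) * (R + 1) * B := by ring
      linarith
    nlinarith
  have hWeq : W = fun t θ => (∑ γ ∈ T, c t θ γ)⁻¹ • ∑ γ ∈ T, c t θ γ • L γ := hW
  clear_value W
  refine Cliff.four_dvd_of_odd (fun t θ => W t θ - W (Real.pi - t) (θ + Real.pi)) Real.pi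
    (Real.pi / 2) Real.pi_pos (by positivity) ?_ htrans ?_ ?_ ?_
  · refine hWc.sub ?_
    exact hWc.comp (by fun_prop : Continuous fun p : ℝ × ℝ => (Real.pi - p.1, p.2 + Real.pi))
  · intro t θ
    rw [hWper, show θ + 2 * Real.pi + Real.pi = (θ + Real.pi) + 2 * Real.pi by ring, hWper]
  · intro θ
    simp only [sub_zero]
    have a1 : W 0 θ = W 0 0 := by simp only [hWeq, hc]; rw [pt_zero]
    have a2 : W Real.pi (θ + Real.pi) = W Real.pi (0 + Real.pi) := by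
      simp only [hWeq, hc]; rw [pt_pi s (θ + Real.pi), pt_pi s (0 + Real.pi)]
    rw [a1, a2]
  · intro θ
    rw [show Real.pi - Real.pi / 2 = Real.pi / 2 by ring,
      show θ + Real.pi + Real.pi = θ + 2 * Real.pi by ring, hWper]
    abel

end Pool.Agent.R786.Kl
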