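import Pool.Agent.R786.KleinMain

/-!
The core theorem for discrete cocompact subgroups of `PSL(2,ℂ)`.
-/

set_option autoImplicit false

namespace Pool.Agent.R786.KlP

open Matrix Topology
open scoped ComplexOrder
open Pool.Agent.R786

/-- `PSL(2,ℂ)`. -/
abbrev PSL : Type := Matrix.ProjectiveSpecialLinearGroup (Fin 2) ℂ

/-- The class in `PSL(2,ℂ)`. -/
abbrev cls (g : Matrix.SpecialLinearGroup (Fin 2) ℂ) : PSL := QuotientGroup.mk g

theorem center_finite :
    (Subgroup.center (Matrix.SpecialLinearGroup (Fin 2) ℂ) :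
      Set (Matrix.SpecialLinearGroup (Fin 2) ℂ)).Finite := by
  have : NeZero (Fintype.card (Fin 2)) := ⟨by simp⟩
  have h : Finite (Subgroup.center (Matrix.SpecialLinearGroup (Fin 2) ℂ)) :=
    Finite.of_equiv _
      (Matrix.SpecialLinearGroup.center_equiv_rootsOfUnity' (n := Fin 2) (R := ℂ) 0).symm.toEquiv
  exact Set.toFinite _

theorem fiber_finite (b : PSL) :
    {g : Matrix.SpecialLinearGroup (Fin 2) ℂ | cls g = b}.Finite := by
  by_cases h : ∃ g₀ : Matrix.SpecialLinearGroup (Fin 2) ℂ, cls g₀ = b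
  · obtain ⟨g₀, rfl⟩ := h
    refine (center_finite.image (fun z => g₀ * z)).subset ?_
    intro g hg
    have h1 : cls g₀ = QuotientGroup.mk g := (Set.mem_ofPred_eq ▸ hg).symm
    rw [QuotientGroup.eq] at h1
    exact ⟨g₀⁻¹ * g, h1, by simp⟩
  · convert Set.finite_empty
    ext g
    simp only [Set.mem_ofPred_eq, Set.mem_empty_iff_false, iff_false]
    exact fun hg => h ⟨g, hg⟩


/-- the core theorem for subgroups of `PSL(2,ℂ)`. -/
theorem psl_core (N : ℕ) (Γ : Subgroup PSL) (hdisc : DiscreteTopology Γ)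
    (K : Set (Matrix (Fin 2) (Fin 2) ℂ)) (hKc : IsCompact K)
    (hcov : ∀ P : Matrix (Fin 2) (Fin 2) ℂ, P.PosDef → P.det = 1 →
      ∃ g : Matrix.SpecialLinearGroup (Fin 2) ℂ, cls g ∈ Γ ∧
      (g : Matrix (Fin 2) (Fin 2) ℂ) * P * (g : Matrix (Fin 2) (Fin 2) ℂ)ᴴ ∈ K)
    (φ : Γ →* (Kl.V N ≃ₗ[ℝ] Kl.V N)) (hiso : ∀ γ x, Kl.qf (φ γ x) = Kl.qf x)
    (hφ : ∀ C : Set (Kl.V N), IsCompact C → (∀ x ∈ C, Kl.qf x = -1) →
      {γ : Γ | ((fun x => φ γ x) '' C ∩ C).Nonempty}.Finite) : 4 ∣ N := by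
  have hT1 : T1Space (Matrix.SpecialLinearGroup (Fin 2) ℂ) := inferInstance
  have hcl : IsClosed (Subgroup.center (Matrix.SpecialLinearGroup (Fin 2) ℂ) :
      Set (Matrix.SpecialLinearGroup (Fin 2) ℂ)) := center_finite.isClosed
  have hT3 : T3Space PSL := QuotientGroup.instT3Space (hN := hcl)
  -- the preimage in `SL(2,ℂ)`
  set mk : Matrix.SpecialLinearGroup (Fin 2) ℂ →* PSL := QuotientGroup.mk' _ with hmk
  set Γ' : Subgroup (Matrix.SpecialLinearGroup (Fin 2) ℂ) := Γ.comap mk with hΓ'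
  let p : Γ' →* Γ := (mk.comp Γ'.subtype).codRestrict Γ (fun γ => γ.2)
  let ψ : Γ' →* (Kl.V N ≃ₗ[ℝ] Kl.V N) := φ.comp p
  have hpfib : ∀ b : Γ, (p ⁻¹' {b}).Finite := by
    intro b
    have h1 := fiber_finite (b : PSL)
    refine Set.Finite.of_finite_image (f := fun γ : Γ' => (γ : Matrix.SpecialLinearGroup (Fin 2) ℂ))
      (h1.subset ?_) (Subtype.val_injective.injOn)
    rintro _ ⟨γ, hγ, rfl⟩
    have h2 : p γ = b := hγ
    show (QuotientGroup.mk (γ : Matrix.SpecialLinearGroup (Fin 2) ℂ) : PSL) = b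
    rw [← h2]
    rfl
  refine Kl.core Γ'.subtype ?_ ?_ ψ ?_ ?_
  · -- discreteness
    intro R
    have hcomp : IsCompact {g : Matrix.SpecialLinearGroup (Fin 2) ℂ | Kl.Ent g R} := by
      have h1 : IsCompact (Set.pi Set.univ (fun _ : Fin 2 => Set.pi Set.univ
          (fun _ : Fin 2 => Metric.closedBall (0:ℂ) R))) :=
        isCompact_univ_pi fun _ => isCompact_univ_pi fun _ => isCompact_closedBall _ _
      have h2 := (Matrix.SpecialLinearGroup.isClosedEmbedding_val (n := Fin 2)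
        (R := ℂ)).isCompact_preimage h1
      have h3 : {g : Matrix.SpecialLinearGroup (Fin 2) ℂ | Kl.Ent g R} =
          (fun g : Matrix.SpecialLinearGroup (Fin 2) ℂ => (g : Matrix (Fin 2) (Fin 2) ℂ)) ⁻¹'
          (Set.pi Set.univ (fun _ : Fin 2 => Set.pi Set.univ
          (fun _ : Fin 2 => Metric.closedBall (0:ℂ) R))) := by
        ext g
        constructor
        · intro hg i _ j _
          exact mem_closedBall_zero_iff.2 (hg i j)
        · intro hg i j
          exact mem_closedBall_zero_iff.1 (hg i (Set.mem_univ i) j (Set.mem_univ j))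
      rw [h3]
      exact h2
    have hcont : Continuous (fun g : Matrix.SpecialLinearGroup (Fin 2) ℂ =>
        cls g) := continuous_quotient_mk'
    have himg := hcomp.image hcont
    have hΓcl : IsClosed (Γ : Set PSL) := Subgroup.isClosed_of_discrete
    have hfin : ((Γ : Set PSL) ∩ ((fun g : Matrix.SpecialLinearGroup (Fin 2) ℂ =>
        cls g) '' {g | Kl.Ent g R})).Finite := by
      have hc2 : IsCompact ((Γ : Set PSL) ∩ ((fun g : Matrix.SpecialLinearGroup (Fin 2) ℂ =>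
        cls g) '' {g | Kl.Ent g R})) := himg.inter_left hΓcl
      have hd2 : IsDiscrete ((Γ : Set PSL) ∩ ((fun g : Matrix.SpecialLinearGroup (Fin 2) ℂ =>
        cls g) '' {g | Kl.Ent g R})) :=
        IsDiscrete.mono ⟨hdisc⟩ Set.inter_subset_left
      exact hc2.finite hd2
    have h3 : {γ : Γ' | Kl.Ent (Γ'.subtype γ) R} ⊆
        (fun γ : Γ' => (QuotientGroup.mk (γ : Matrix.SpecialLinearGroup (Fin 2) ℂ) : PSL)) ⁻¹'
        ((Γ : Set PSL) ∩ ((fun g : Matrix.SpecialLinearGroup (Fin 2) ℂ =>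
        cls g) '' {g | Kl.Ent g R})) := by
      intro γ hγ
      exact ⟨γ.2, ⟨(γ : Matrix.SpecialLinearGroup (Fin 2) ℂ), hγ, rfl⟩⟩
    refine Set.Finite.subset (Set.Finite.preimage' hfin fun b _ => ?_) h3
    refine Set.Finite.of_finite_image (f := fun γ : Γ' => (γ : Matrix.SpecialLinearGroup (Fin 2) ℂ))
      ((fiber_finite b).subset ?_) (Subtype.val_injective.injOn)
    rintro _ ⟨γ, hγ, rfl⟩
    exact hγ
  · -- cocompactness
    have hbd : ∃ B : ℝ, ∀ P ∈ K, ∀ i : Fin 2, ‖P i i‖ ≤ B := by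
      have h1 : ∀ i : Fin 2, ∃ B : ℝ, ∀ P ∈ K, ‖P i i‖ ≤ B := by
        intro i
        have hc : Continuous fun P : Matrix (Fin 2) (Fin 2) ℂ => P i i :=
          continuous_id.matrix_elem i i
        obtain ⟨B, hB⟩ := (hKc.image hc).isBounded.exists_norm_le
        exact ⟨B, fun P hP => hB _ ⟨P, hP, rfl⟩⟩
      choose B hB using h1
      refine ⟨max (B 0) (B 1), fun P hP i => ?_⟩
      fin_cases i
      · exact (hB 0 P hP).trans (le_max_left _ _)
      · exact (hB 1 P hP).trans (le_max_right _ _)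
    obtain ⟨B, hB⟩ := hbd
    refine ⟨max B 0 + 1, fun g => ?_⟩
    have hP : ((g : Matrix (Fin 2) (Fin 2) ℂ) * (g : Matrix (Fin 2) (Fin 2) ℂ)ᴴ).PosDef ∧
        ((g : Matrix (Fin 2) (Fin 2) ℂ) * (g : Matrix (Fin 2) (Fin 2) ℂ)ᴴ).det = 1 := by
      refine ⟨?_, ?_⟩
      · refine Matrix.PosDef.mul_conjTranspose_self _ ?_
        refine Matrix.vecMul_injective_of_isUnit ?_
        rw [Matrix.isUnit_iff_isUnit_det, Matrix.SpecialLinearGroup.det_coe]
        exact isUnit_one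
      · rw [Matrix.det_mul, Matrix.det_conjTranspose, Matrix.SpecialLinearGroup.det_coe]
        simp
    obtain ⟨x, hxΓ, hxK⟩ := hcov _ hP.1 hP.2
    refine ⟨⟨x⁻¹, ?_⟩, ?_⟩
    · show mk x⁻¹ ∈ Γ
      rw [map_inv]
      exact Γ.inv_mem hxΓ
    · have h1 : (Γ'.subtype ⟨x⁻¹, by
          show mk x⁻¹ ∈ Γ
          rw [map_inv]
          exact Γ.inv_mem hxΓ⟩)⁻¹ * g = x * g := by
        show (x⁻¹)⁻¹ * g = x * g
        rw [inv_inv]
      rw [h1]
      have h2 : (x : Matrix (Fin 2) (Fin 2) ℂ) * ((g : Matrix (Fin 2) (Fin 2) ℂ) *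
          (g : Matrix (Fin 2) (Fin 2) ℂ)ᴴ) * (x : Matrix (Fin 2) (Fin 2) ℂ)ᴴ =
          ((x * g : Matrix.SpecialLinearGroup (Fin 2) ℂ) : Matrix (Fin 2) (Fin 2) ℂ) *
          ((x * g : Matrix.SpecialLinearGroup (Fin 2) ℂ) : Matrix (Fin 2) (Fin 2) ℂ)ᴴ := by
        rw [Matrix.SpecialLinearGroup.coe_mul, Matrix.conjTranspose_mul]
        simp only [Matrix.mul_assoc]
      rw [h2] at hxK
      intro i j
      have h3 := hB _ hxK i
      set X := ((x * g : Matrix.SpecialLinearGroup (Fin 2) ℂ) : Matrix (Fin 2) (Fin 2) ℂ) with hX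
      have h4 : (X * Xᴴ) i i = ((∑ k, ‖X i k‖ ^ 2 : ℝ) : ℂ) := by
        rw [Matrix.mul_apply]
        push_cast
        refine Finset.sum_congr rfl fun k _ => ?_
        rw [Matrix.conjTranspose_apply, Complex.star_def, Complex.mul_conj, Complex.normSq_eq_norm_sq]
        push_cast
        rfl
      rw [h4, Complex.norm_real, Real.norm_eq_abs, abs_of_nonneg (Finset.sum_nonneg fun _ _ =>
        sq_nonneg _)] at h3
      have h5 : ‖X i j‖ ^ 2 ≤ ∑ k, ‖X i k‖ ^ 2 :=
        Finset.single_le_sum (f := fun k => ‖X i k‖ ^ 2) (fun _ _ => sq_nonneg _)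
          (Finset.mem_univ j)
      have h6 : ‖X i j‖ ^ 2 ≤ max B 0 := (h5.trans h3).trans (le_max_left _ _)
      have h7 : 0 ≤ max B 0 := le_max_right _ _
      nlinarith [norm_nonneg (X i j)]
  · intro γ x
    exact hiso (p γ) x
  · intro C hC hq
    have h1 := hφ C hC hq
    refine Set.Finite.subset (Set.Finite.preimage' h1 fun b _ => hpfib b) ?_
    intro γ hγ
    exact hγ

end Pool.Agent.R786.KlP
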