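import Pool.Agent.R786.Cliff

set_option autoImplicit false

/-!
There is no continuous odd map from the two-sphere to the orthogonal `N × N` matrices
when `N` is congruent to `2` modulo `4`.
-/

namespace Pool.Agent.R786.Cliff

open Matrix Topology

section Cont

variable {I : Type} [Fintype I] [DecidableEq I]

theorem continuous_inter {X : Type*} [TopologicalSpace X] {N : ℕ}
    (f e : X → ℕ → Matrix I I ℝ) (hf : ∀ i < N, Continuous fun x => f x i)
    (he : ∀ i < N, Continuous fun x => e x i) :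
    ∀ k ≤ N, Continuous fun x => inter (f x) (e x) k := by
  intro k
  induction k with
  | zero => intro _; simp only [inter]; exact continuous_const
  | succ k ih =>
    intro hk
    have h := ih (by omega)
    have hfk := hf k (by omega)
    have hek := he k (by omega)
    simp only [inter]
    exact ((h.add ((hfk.mul h).mul hek)).const_smul (2⁻¹ : ℝ))

/-- Product of intertwiners along a subdivided path. -/
noncomputable def chain (N : ℕ) (g : ℝ → ℝ → ℕ → Matrix I I ℝ) (ε : ℝ) : ℕ → ℝ → Matrix I I ℝ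
  | 0, _ => 1
  | k + 1, θ => inter (g ((k + 1 : ℕ) * ε) θ) (g ((k : ℕ) * ε) θ) N * chain N g ε k θ

theorem exists_lift {N : ℕ} (g : ℝ → ℝ → ℕ → Matrix I I ℝ) (P T : ℝ) (hP : 0 < P) (hT : 0 < T)
    (hg : ∀ i < N, Continuous fun p : ℝ × ℝ => g p.1 p.2 i)
    (hcl : ∀ t θ, IsCl N (g t θ)) (hper : ∀ t θ, g t (θ + P) = g t θ) :
    ∃ q : ℝ → Matrix I I ℝ, Continuous q ∧ (∀ θ, q (θ + P) = q θ) ∧ (∀ θ, (q θ).det ≠ 0) ∧
      (∀ θ, ∀ i < N, g T θ i * q θ = q θ * g 0 θ i) ∧
      (∀ F : Matrix I I ℝ, (∀ t θ, ∀ i < N, g t θ i * F = - (F * g t θ i)) →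
        ∀ θ, q θ * F = F * q θ) := by
  -- the determinant of the short intertwiners
  set H : (ℝ × ℝ) × ℝ → ℝ := fun p =>
    (inter (g (p.1.1 + p.2) p.1.2) (g p.1.1 p.1.2) N).det with hH
  have hHc : Continuous H := by
    refine Continuous.matrix_det ?_
    refine continuous_inter (fun p : (ℝ × ℝ) × ℝ => g (p.1.1 + p.2) p.1.2)
      (fun p : (ℝ × ℝ) × ℝ => g p.1.1 p.1.2) ?_ ?_ N le_rfl
    · intro i hi
      exact (hg i hi).comp (by fun_prop : Continuous fun p : (ℝ × ℝ) × ℝ => (p.1.1 + p.2, p.1.2))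
    · intro i hi
      exact (hg i hi).comp (by fun_prop : Continuous fun p : (ℝ × ℝ) × ℝ => (p.1.1, p.1.2))
  have hopen : IsOpen {p : (ℝ × ℝ) × ℝ | H p ≠ 0} := isOpen_ne_fun hHc continuous_const
  have hK : IsCompact (Set.Icc (0:ℝ) T ×ˢ Set.Icc (0:ℝ) P) := isCompact_Icc.prod isCompact_Icc
  have hsub : (Set.Icc (0:ℝ) T ×ˢ Set.Icc (0:ℝ) P) ×ˢ ({0} : Set ℝ) ⊆
      {p : (ℝ × ℝ) × ℝ | H p ≠ 0} := by
    rintro ⟨⟨s, θ⟩, ε⟩ ⟨_, hε⟩
    rw [Set.mem_singleton_iff] at hε
    simp only at hε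
    subst hε
    show (inter (g (s + 0) θ) (g s θ) N).det ≠ 0
    rw [add_zero, inter_self (hcl s θ) N le_rfl, det_one]
    exact one_ne_zero
  obtain ⟨u, v, hu, hv, hsu, hsv, huv⟩ :=
    generalized_tube_lemma hK isCompact_singleton hopen hsub
  obtain ⟨δ, hδ, hδv⟩ := Metric.isOpen_iff.1 hv 0 (hsv rfl)
  obtain ⟨n, hn⟩ := exists_nat_gt (T / δ)
  have hn0 : (0:ℝ) < n := lt_of_le_of_lt (by positivity) hn
  have hnn : n ≠ 0 := by
    rintro rfl; simp at hn0
  set ε : ℝ := T / n with hε
  have hεpos : 0 < ε := by positivity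
  have hεδ : ε < δ := by
    rw [hε, div_lt_iff₀ hn0]
    rw [div_lt_iff₀ hδ] at hn
    linarith
  have hεv : ε ∈ v := hδv (by
    rw [Metric.mem_ball, Real.dist_eq, sub_zero, abs_of_pos hεpos]; exact hεδ)
  have hne : ∀ k < n, ∀ θ, (inter (g ((k + 1 : ℕ) * ε) θ) (g ((k : ℕ) * ε) θ) N).det ≠ 0 := by
    intro k hk θ
    obtain ⟨θ', hθ', hgθ⟩ : ∃ θ' ∈ Set.Ico (0:ℝ) P, (fun t => g t θ) = (fun t => g t θ') := by
      have hp : Function.Periodic (fun θ => (fun t => g t θ)) P := by
        intro θ; funext t; exact hper t θ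
      exact hp.exists_mem_Ico₀ hP θ
    have e1 : g ((k + 1 : ℕ) * ε) θ = g ((k : ℕ) * ε + ε) θ' := by
      rw [show ((k + 1 : ℕ) : ℝ) * ε = (k : ℕ) * ε + ε by push_cast; ring]
      exact congrFun hgθ _
    have e2 : g ((k : ℕ) * ε) θ = g ((k : ℕ) * ε) θ' := congrFun hgθ _
    rw [e1, e2]
    have hmem : (((k : ℕ) * ε, θ'), ε) ∈ u ×ˢ v := by
      refine ⟨hsu ⟨⟨by positivity, ?_⟩, ⟨hθ'.1, hθ'.2.le⟩⟩, hεv⟩
      show (k:ℝ) * ε ≤ T
      rw [hε, mul_div_assoc', div_le_iff₀ hn0]
      have : (k:ℝ) ≤ n := by exact_mod_cast hk.le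
      nlinarith
    exact huv hmem
  have hTn : ((n : ℕ) : ℝ) * ε = T := by rw [hε]; field_simp
  have key : ∀ k ≤ n, Continuous (chain N g ε k) ∧ (∀ θ, chain N g ε k (θ + P) = chain N g ε k θ) ∧
      (∀ θ, (chain N g ε k θ).det ≠ 0) ∧
      (∀ θ, ∀ i < N, g (k * ε) θ i * chain N g ε k θ = chain N g ε k θ * g 0 θ i) ∧
      (∀ F : Matrix I I ℝ, (∀ t θ, ∀ i < N, g t θ i * F = - (F * g t θ i)) →
        ∀ θ, chain N g ε k θ * F = F * chain N g ε k θ) := by
    intro k
    induction k with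
    | zero =>
      intro _
      refine ⟨continuous_const, fun _ => rfl, fun _ => by simp [chain], ?_, ?_⟩
      · intro θ i _
        simp [chain]
      · intro F _ θ
        simp [chain]
    | succ k ih =>
      intro hk
      obtain ⟨i1, i2, i3, i4, i5⟩ := ih (by omega)
      refine ⟨?_, ?_, ?_, ?_, ?_⟩
      · have : Continuous fun θ => inter (g ((k + 1 : ℕ) * ε) θ) (g ((k : ℕ) * ε) θ) N := by
          refine continuous_inter (fun θ => g ((k + 1 : ℕ) * ε) θ) (fun θ => g ((k : ℕ) * ε) θ)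
            ?_ ?_ N le_rfl
          · intro i hi
            exact (hg i hi).comp (by fun_prop : Continuous fun θ : ℝ => (((k + 1 : ℕ) * ε, θ) : ℝ × ℝ))
          · intro i hi
            exact (hg i hi).comp (by fun_prop : Continuous fun θ : ℝ => (((k : ℕ) * ε, θ) : ℝ × ℝ))
        exact this.mul i1
      · intro θ
        simp only [chain]
        rw [i2, hper, hper]
      · intro θ
        simp only [chain]
        rw [det_mul]
        exact mul_ne_zero (hne k (by omega) θ) (i3 θ)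
      · intro θ i hi
        simp only [chain]
        rw [← mul_assoc, inter_spec (hcl _ θ) (hcl _ θ) N le_rfl i hi, mul_assoc, i4 θ i hi,
          mul_assoc]
      · intro F hF θ
        simp only [chain]
        rw [mul_assoc, i5 F hF θ, ← mul_assoc,
          inter_comm F (fun k hk => hF _ _ k hk) (fun k hk => hF _ _ k hk) N le_rfl, mul_assoc]
  obtain ⟨k1, k2, k3, k4, k5⟩ := key n le_rfl
  refine ⟨chain N g ε n, k1, k2, k3, ?_, k5⟩
  intro θ i hi
  have := k4 θ i hi
  rwa [hTn] at this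

end Cont

section Gamma

variable {I : Type} [Fintype I] [DecidableEq I] {N : ℕ}

/-- The Clifford map. -/
noncomputable def gam (E : Fin N → Matrix I I ℝ) (a : Fin N → ℝ) : Matrix I I ℝ :=
  ∑ k, a k • E k

theorem gam_mul_add (E : Fin N → Matrix I I ℝ) (h1 : ∀ i, E i * E i = 1)
    (h2 : ∀ i j, i ≠ j → E i * E j = - (E j * E i)) (a b : Fin N → ℝ) :
    gam E a * gam E b + gam E b * gam E a = (2 * ∑ k, a k * b k) • (1 : Matrix I I ℝ) := by
  classical
  have e1 : gam E a * gam E b = ∑ k, ∑ l, (a k * b l) • (E k * E l) := by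
    unfold gam
    rw [Finset.sum_mul_sum]
    refine Finset.sum_congr rfl fun k _ => Finset.sum_congr rfl fun l _ => ?_
    rw [smul_mul_smul_comm]
  have e2 : gam E b * gam E a = ∑ k, ∑ l, (a k * b l) • (E l * E k) := by
    unfold gam
    rw [Finset.sum_mul_sum, Finset.sum_comm]
    refine Finset.sum_congr rfl fun k _ => Finset.sum_congr rfl fun l _ => ?_
    rw [smul_mul_smul_comm, mul_comm (b l)]
  rw [e1, e2, ← Finset.sum_add_distrib, Finset.mul_sum, Finset.sum_smul]
  refine Finset.sum_congr rfl fun k _ => ?_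
  rw [← Finset.sum_add_distrib, Finset.sum_eq_single k]
  · rw [h1, ← add_smul]; congr 1; ring
  · intro l _ hl
    rw [← smul_add, h2 k l (Ne.symm hl), neg_add_cancel, smul_zero]
  · intro h; exact absurd (Finset.mem_univ _) h

theorem gam_sq (E : Fin N → Matrix I I ℝ) (h1 : ∀ i, E i * E i = 1)
    (h2 : ∀ i j, i ≠ j → E i * E j = - (E j * E i)) (a : Fin N → ℝ) (ha : ∑ k, a k * a k = 1) :
    gam E a * gam E a = 1 := by
  have h := gam_mul_add E h1 h2 a a
  rw [ha, mul_one, ← two_smul ℝ (gam E a * gam E a)] at h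
  have h3 := congrArg (fun z : Matrix I I ℝ => (2⁻¹ : ℝ) • z) h
  simp only [smul_smul] at h3
  norm_num at h3
  exact h3

theorem gam_anti (E : Fin N → Matrix I I ℝ) (h1 : ∀ i, E i * E i = 1)
    (h2 : ∀ i j, i ≠ j → E i * E j = - (E j * E i)) (a b : Fin N → ℝ)
    (ha : ∑ k, a k * b k = 0) :
    gam E a * gam E b = - (gam E b * gam E a) := by
  have h := gam_mul_add E h1 h2 a b
  rw [ha, mul_zero, zero_smul] at h
  exact eq_neg_of_add_eq_zero_left h

theorem gam_F (E : Fin N → Matrix I I ℝ) (F : Matrix I I ℝ)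
    (h3 : ∀ i, E i * F = - (F * E i)) (a : Fin N → ℝ) :
    gam E a * F = - (F * gam E a) := by
  unfold gam
  rw [Finset.sum_mul, Finset.mul_sum, ← Finset.sum_neg_distrib]
  refine Finset.sum_congr rfl fun k _ => ?_
  rw [smul_mul_assoc, h3, mul_smul_comm, smul_neg]

/-- The Clifford system attached to the columns of a matrix. -/
noncomputable def sys (E : Fin N → Matrix I I ℝ) (U : Matrix (Fin N) (Fin N) ℝ) (i : ℕ) :
    Matrix I I ℝ :=
  if h : i < N then gam E (fun k => U k ⟨i, h⟩) else 0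

theorem sys_isCl (E : Fin N → Matrix I I ℝ) (h1 : ∀ i, E i * E i = 1)
    (h2 : ∀ i j, i ≠ j → E i * E j = - (E j * E i)) (U : Matrix (Fin N) (Fin N) ℝ)
    (hU : Uᵀ * U = 1) : IsCl N (sys E U) := by
  have hU' : ∀ i j, ∑ k, U k i * U k j = if i = j then 1 else 0 := by
    intro i j
    have := congrFun (congrFun hU i) j
    rw [Matrix.mul_apply, Matrix.one_apply] at this
    simpa only [Matrix.transpose_apply] using this
  refine ⟨?_, ?_⟩
  · intro i hi
    simp only [sys, hi, dif_pos]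
    exact gam_sq E h1 h2 _ (by rw [hU']; simp)
  · intro i hi j hj hij
    simp only [sys, hi, hj, dif_pos]
    refine gam_anti E h1 h2 _ _ ?_
    rw [hU', if_neg]
    intro h
    exact hij (congrArg Fin.val h)

theorem vol_F {e : ℕ → Matrix I I ℝ} (F : Matrix I I ℝ) (he : ∀ k < N, e k * F = - (F * e k)) :
    ∀ k ≤ N, vol e k * F = (-1 : Matrix I I ℝ) ^ k * (F * vol e k) := by
  intro k
  induction k with
  | zero => intro _; simp [vol]
  | succ k ih =>
    intro hk
    calc vol e (k + 1) * F = vol e k * (e k * F) := by rw [vol, mul_assoc]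
      _ = - (vol e k * F * e k) := by rw [he k (by omega)]; simp only [mul_neg, mul_assoc]
      _ = (-1 : Matrix I I ℝ) ^ (k + 1) * (F * vol e (k + 1)) := by
          rw [ih (by omega), vol, pow_succ]
          simp only [mul_neg, mul_one, neg_mul, mul_assoc]

end Gamma

/-- A nowhere vanishing continuous real function keeps its sign. -/
theorem mul_pos_of_ne {c : ℝ → ℝ} (hc : Continuous c) (h0 : ∀ x, c x ≠ 0) (a b : ℝ) :
    0 < c a * c b := by
  by_contra hcon
  push Not at hcon
  have hlt : c a * c b < 0 := lt_of_le_of_ne hcon (mul_ne_zero (h0 a) (h0 b))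
  rcases mul_neg_iff.1 hlt with ⟨h1, h2⟩ | ⟨h1, h2⟩
  · obtain ⟨x, hx⟩ := mem_range_of_exists_le_of_exists_ge hc ⟨b, h2.le⟩ ⟨a, h1.le⟩
    exact h0 x hx
  · obtain ⟨x, hx⟩ := mem_range_of_exists_le_of_exists_ge hc ⟨a, h1.le⟩ ⟨b, h2.le⟩
    exact h0 x hx

/-- No odd family of orthogonal matrices over the two-sphere, in size congruent to two
modulo four. -/
theorem no_odd_orth {N : ℕ} (hN : N % 4 = 2) (U : ℝ → ℝ → Matrix (Fin N) (Fin N) ℝ)
    (P T : ℝ) (hP : 0 < P) (hT : 0 < T)
    (hU : Continuous fun p : ℝ × ℝ => U p.1 p.2)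
    (horth : ∀ t θ, (U t θ)ᵀ * U t θ = 1)
    (hper : ∀ t θ, U t (θ + 2 * P) = U t θ)
    (hbase : ∀ θ, U 0 θ = U 0 0)
    (hodd : ∀ θ, U T (θ + P) = - U T θ) : False := by
  obtain ⟨I, _, _, _, E, F, h1, h2, h3, h4⟩ := exists_gamma N
  set g : ℝ → ℝ → ℕ → Matrix I I ℝ := fun t θ => sys E (U t θ) with hg
  have hgc : ∀ i < N, Continuous fun p : ℝ × ℝ => g p.1 p.2 i := by
    intro i hi
    simp only [hg, sys, hi, dif_pos, gam]
    refine continuous_finsetSum _ fun k _ => ?_
    have : Continuous fun p : ℝ × ℝ => U p.1 p.2 k ⟨i, hi⟩ :=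
      hU.matrix_elem k ⟨i, hi⟩
    exact this.smul continuous_const
  have hgF : ∀ j, ∀ t θ, ∀ i < N, g t θ i * F j = - (F j * g t θ i) := by
    intro j t θ i hi
    simp only [hg, sys, hi, dif_pos]
    exact gam_F E (F j) (fun i => h3 i j) _
  have hcl : ∀ t θ, IsCl N (g t θ) := fun t θ => sys_isCl E h1 h2 _ (horth t θ)
  obtain ⟨q, q1, q2, q3, q4, q5⟩ := exists_lift g (2 * P) T (by positivity) hT hgc hcl
    (fun t θ => by simp only [hg, hper])
  set e : ℕ → Matrix I I ℝ := g 0 0 with he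
  have hge : ∀ θ, g 0 θ = e := by
    intro θ; simp only [he, hg, hbase θ]
  have hecl : IsCl N e := hcl 0 0
  set ω := vol e N with hω
  have hev : Even N := Nat.even_iff.2 (by omega)
  have hωe : ∀ i < N, e i * ω = - (ω * e i) := by
    intro i hi
    have := vol_lt hecl N le_rfl i hi
    rw [pow_succ, hev.neg_one_pow] at this
    simpa using this
  have hωF : ∀ j, ω * F j = F j * ω := by
    intro j
    have := vol_F (e := e) (F j) (hgF j 0 0) N le_rfl
    rw [hev.neg_one_pow, one_mul] at this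
    exact this
  have hω2 : ω * ω = -1 := by
    have := vol_sq hecl N le_rfl
    rw [this]
    obtain ⟨m, hm⟩ : ∃ m, N = 4 * m + 2 := ⟨N / 4, by omega⟩
    have : N * (N - 1) / 2 = 2 * (4 * m * m + 3 * m) + 1 := by
      rw [hm, show 4 * m + 2 - 1 = 4 * m + 1 by omega]
      have : (4 * m + 2) * (4 * m + 1) = (2 * (4 * m * m + 3 * m) + 1) * 2 := by ring
      rw [this, Nat.mul_div_cancel _ (by norm_num)]
    rw [this, pow_succ, pow_mul]
    simp
  -- symmetry of `q`
  have hgT : ∀ θ, ∀ i < N, g T (θ + P) i = - g T θ i := by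
    intro θ i hi
    simp only [hg, sys, hi, dif_pos, hodd, gam, Matrix.neg_apply, neg_smul,
      Finset.sum_neg_distrib]
  have hinv : ∀ θ, IsUnit (q θ * ω) := by
    intro θ
    have a1 : IsUnit (q θ) := (Matrix.isUnit_iff_isUnit_det _).2 (isUnit_iff_ne_zero.2 (q3 θ))
    have a2 : IsUnit ω := by
      refine IsUnit.of_mul_eq_one (-ω) ?_
      rw [mul_neg, hω2, neg_neg]
    exact a1.mul a2
  have hz : ∀ θ, ∃ c : ℝ, q (θ + P) = c • (q θ * ω) := by
    intro θ
    obtain ⟨w, hw⟩ := hinv θ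
    -- `w = q θ * ω`
    set z : Matrix I I ℝ := (↑w⁻¹ : Matrix I I ℝ) * q (θ + P) with hzdef
    have hwz : (w : Matrix I I ℝ) * z = q (θ + P) := by
      rw [hzdef, ← mul_assoc, Units.mul_inv, one_mul]
    have comm_of : ∀ X : Matrix I I ℝ, (∃ Y : Matrix I I ℝ, Y * (w : Matrix I I ℝ) = w * X ∧
        Y * q (θ + P) = q (θ + P) * X) → z * X = X * z := by
      rintro X ⟨Y, hY1, hY2⟩
      have : (w : Matrix I I ℝ) * (z * X) = w * (X * z) := by
        rw [← mul_assoc, hwz, ← mul_assoc, ← hY1, mul_assoc, hwz, hY2]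
      calc z * X = (↑w⁻¹ : Matrix I I ℝ) * (w * (z * X)) := by
            rw [← mul_assoc, Units.inv_mul, one_mul]
        _ = (↑w⁻¹ : Matrix I I ℝ) * (w * (X * z)) := by rw [this]
        _ = X * z := by rw [← mul_assoc, Units.inv_mul, one_mul]
    have hze : ∀ i < N, z * e i = e i * z := by
      intro i hi
      refine comm_of (e i) ⟨- g T θ i, ?_, ?_⟩
      · rw [hw]
        have b1 := q4 θ i hi
        rw [hge] at b1
        calc - g T θ i * (q θ * ω) = - ((g T θ i * q θ) * ω) := by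
              rw [neg_mul, mul_assoc]
          _ = - (q θ * (e i * ω)) := by rw [b1, mul_assoc]
          _ = q θ * ω * e i := by rw [hωe i hi]; simp only [mul_neg, neg_neg, mul_assoc]
      · have b1 := q4 (θ + P) i hi
        rw [hge, hgT θ i hi] at b1
        exact b1
    have hzF : ∀ j, z * F j = F j * z := by
      intro j
      refine comm_of (F j) ⟨F j, ?_, ?_⟩
      · rw [hw, mul_assoc, hωF, ← mul_assoc, ← mul_assoc, q5 (F j) (hgF j) θ]
      · rw [q5 (F j) (hgF j) (θ + P)]
    have hzE : ∀ k, z * E k = E k * z := by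
      intro k
      have hUU : U 0 0 * (U 0 0)ᵀ = 1 := mul_eq_one_comm.1 (horth 0 0)
      have hE : E k = ∑ i : Fin N, (U 0 0 k i) • e i := by
        have c1 : ∀ i : Fin N, e i = ∑ l, U 0 0 l i • E l := by
          intro i
          simp only [he, hg, sys, i.2, dif_pos, gam]
        simp only [c1, Finset.smul_sum, smul_smul]
        rw [Finset.sum_comm]
        simp only [← Finset.sum_smul]
        have c2 : ∀ l, ∑ i, U 0 0 k i * U 0 0 l i = if k = l then 1 else 0 := by
          intro l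
          have := congrFun (congrFun hUU k) l
          rw [Matrix.mul_apply, Matrix.one_apply] at this
          simpa only [Matrix.transpose_apply] using this
        simp only [c2]
        simp
      rw [hE, Finset.mul_sum, Finset.sum_mul]
      refine Finset.sum_congr rfl fun i _ => ?_
      rw [mul_smul_comm, hze i i.2, smul_mul_assoc]
    obtain ⟨c, hc⟩ := h4 z hzE hzF
    refine ⟨c, ?_⟩
    rw [← hwz, hc, mul_smul_comm, mul_one, hw]
  choose c hc using hz
  -- the scalar is given by a continuous function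
  have hcform : ∀ θ, c θ = (((q θ * ω)⁻¹ * q (θ + P)).trace) / (Fintype.card I) := by
    intro θ
    have hu : IsUnit (q θ * ω).det := (Matrix.isUnit_iff_isUnit_det _).1 (hinv θ)
    rw [hc θ, mul_smul_comm, Matrix.nonsing_inv_mul _ hu, Matrix.trace_smul, Matrix.trace_one,
      smul_eq_mul]
    field_simp
  have hccont : Continuous c := by
    have hc' : c = fun θ => (((q θ * ω)⁻¹ * q (θ + P)).trace) / (Fintype.card I) := by
      funext θ; exact hcform θ
    rw [hc']
    refine Continuous.div_const ?_ _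
    refine Continuous.matrix_trace ?_
    refine Continuous.mul ?_ (q1.comp (continuous_add_const P))
    have hqω : Continuous fun θ => q θ * ω := q1.mul continuous_const
    have : (fun θ => (q θ * ω)⁻¹) =
        fun θ => ((q θ * ω).det)⁻¹ • (q θ * ω).adjugate := by
      funext θ
      rw [Matrix.inv_def, Ring.inverse_eq_inv']
    rw [this]
    refine Continuous.smul (Continuous.inv₀ hqω.matrix_det ?_) hqω.matrix_adjugate
    intro θ
    exact ((Matrix.isUnit_iff_isUnit_det _).1 (hinv θ)).ne_zero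
  have hc0 : ∀ θ, c θ ≠ 0 := by
    intro θ h
    have := hc θ
    rw [h, zero_smul] at this
    have h3' := q3 (θ + P)
    rw [this, Matrix.det_zero] at h3'
    exact h3' rfl
  have hpos := mul_pos_of_ne hccont hc0 0 P
  have e1 := hc 0
  have e2 := hc P
  rw [zero_add] at e1
  rw [e1] at e2
  have e3 : q (P + P) = q 0 := by
    have := q2 0
    rw [zero_add, two_mul] at this
    exact this
  rw [e3] at e2
  have e4 : q 0 = (- (c 0 * c P)) • q 0 := by
    calc q 0 = c P • ((c 0 • (q 0 * ω)) * ω) := e2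
      _ = (- (c 0 * c P)) • q 0 := by
        rw [smul_mul_assoc, mul_assoc, hω2, mul_neg, mul_one, smul_smul, smul_neg, neg_smul,
          mul_comm (c P)]
  have e5 : (1 + c 0 * c P) • q 0 = 0 := by
    rw [add_smul, one_smul]
    nth_rewrite 1 [e4]
    rw [neg_smul, neg_add_cancel]
  rcases smul_eq_zero.1 e5 with h | h
  · linarith
  · have := q3 0
    rw [h, Matrix.det_zero] at this
    exact this rfl

end Pool.Agent.R786.Cliff
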