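import Pool.Agent.R786.Lift

set_option autoImplicit false

/-!
An odd continuous family of invertible real `N × N` matrices over the two-sphere exists only if
`4 ∣ N`.
-/

namespace Pool.Agent.R786.Cliff

open Matrix Topology InnerProductSpace

/-- columns of a matrix as vectors of Euclidean space. -/
noncomputable def cols {N : ℕ} (A : Matrix (Fin N) (Fin N) ℝ) (i : Fin N) :
    EuclideanSpace ℝ (Fin N) := WithLp.toLp 2 (fun k => A k i)

theorem cols_li {N : ℕ} (A : Matrix (Fin N) (Fin N) ℝ) (hA : A.det ≠ 0) :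
    LinearIndependent ℝ (cols A) := by
  rw [Fintype.linearIndependent_iff]
  intro c hc i
  have h : A.mulVec c = 0 := by
    funext k
    have := congrArg (fun v : EuclideanSpace ℝ (Fin N) => v k) hc
    simp only [WithLp.ofLp_sum, WithLp.ofLp_smul, Finset.sum_apply, Pi.smul_apply, smul_eq_mul,
      cols, PiLp.zero_apply] at this
    rw [Matrix.mulVec, dotProduct, Pi.zero_apply, ← this]
    exact Finset.sum_congr rfl fun j _ => mul_comm _ _
  have h0 : c = 0 := by
    by_contra hne
    exact hA (Matrix.exists_mulVec_eq_zero_iff.1 ⟨c, hne, h⟩)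
  rw [h0]; rfl

theorem cont_gs {X : Type*} [TopologicalSpace X] {N : ℕ}
    (a : X → Fin N → EuclideanSpace ℝ (Fin N)) (ha : ∀ i, Continuous fun x => a x i)
    (hli : ∀ x, LinearIndependent ℝ (a x)) (i : Fin N) :
    Continuous fun x => gramSchmidt ℝ (a x) i := by
  induction i using WellFoundedLT.induction with
  | ind i ih =>
    have h : (fun x => gramSchmidt ℝ (a x) i) = fun x => a x i - ∑ j ∈ Finset.Iio i,
        (inner ℝ (gramSchmidt ℝ (a x) j) (a x i) / ‖gramSchmidt ℝ (a x) j‖ ^ 2) •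
          gramSchmidt ℝ (a x) j := by
      funext x
      have := gramSchmidt_def'' ℝ (a x) i
      rw [eq_sub_iff_add_eq]
      exact this.symm
    rw [h]
    refine (ha i).sub (continuous_finsetSum _ fun j hj => ?_)
    have hj' := ih j (Finset.mem_Iio.1 hj)
    have hco : Continuous fun x => inner ℝ (gramSchmidt ℝ (a x) j) (a x i) /
        ‖gramSchmidt ℝ (a x) j‖ ^ 2 := by
      refine Continuous.div (hj'.inner (ha i)) (hj'.norm.pow 2) ?_
      intro x
      exact pow_ne_zero 2 (norm_ne_zero_iff.2 (gramSchmidt_ne_zero j (hli x)))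
    exact hco.smul hj'

theorem gs_neg {N : ℕ} (a : Fin N → EuclideanSpace ℝ (Fin N)) (i : Fin N) :
    gramSchmidt ℝ (-a) i = - gramSchmidt ℝ a i := by
  induction i using WellFoundedLT.induction with
  | ind i ih =>
    have h1 := gramSchmidt_def'' ℝ (-a) i
    have h2 := gramSchmidt_def'' ℝ a i
    have h3 : ∑ j ∈ Finset.Iio i,
        (inner ℝ (gramSchmidt ℝ (-a) j) ((-a) i) / (‖gramSchmidt ℝ (-a) j‖ : ℝ) ^ 2) •
          gramSchmidt ℝ (-a) j = - ∑ j ∈ Finset.Iio i,
        (inner ℝ (gramSchmidt ℝ a j) (a i) / (‖gramSchmidt ℝ a j‖ : ℝ) ^ 2) •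
          gramSchmidt ℝ a j := by
      rw [← Finset.sum_neg_distrib]
      refine Finset.sum_congr rfl fun j hj => ?_
      rw [ih j (Finset.mem_Iio.1 hj), Pi.neg_apply, inner_neg_neg, norm_neg, smul_neg]
    have h4 : gramSchmidt ℝ (-a) i = (-a) i - ∑ j ∈ Finset.Iio i,
        (inner ℝ (gramSchmidt ℝ (-a) j) ((-a) i) / (‖gramSchmidt ℝ (-a) j‖ : ℝ) ^ 2) •
          gramSchmidt ℝ (-a) j := eq_sub_of_add_eq h1.symm
    have h5 : gramSchmidt ℝ a i = a i - ∑ j ∈ Finset.Iio i,
        (inner ℝ (gramSchmidt ℝ a j) (a i) / (‖gramSchmidt ℝ a j‖ : ℝ) ^ 2) •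
          gramSchmidt ℝ a j := eq_sub_of_add_eq h2.symm
    rw [h4, h3, h5, Pi.neg_apply]
    abel

/-- the orthonormalized columns. -/
noncomputable def orth {N : ℕ} (A : Matrix (Fin N) (Fin N) ℝ) : Matrix (Fin N) (Fin N) ℝ :=
  Matrix.of fun k i => gramSchmidtNormed ℝ (cols A) i k

theorem orth_orth {N : ℕ} (A : Matrix (Fin N) (Fin N) ℝ) (hA : A.det ≠ 0) :
    (orth A)ᵀ * orth A = 1 := by
  have h := gramSchmidtNormed_orthonormal (𝕜 := ℝ) (cols_li A hA)
  rw [orthonormal_iff_ite] at h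
  ext i j
  rw [Matrix.mul_apply, Matrix.one_apply, ← h i j, PiLp.inner_apply]
  refine Finset.sum_congr rfl fun k _ => ?_
  simp [orth, mul_comm]

theorem orth_neg {N : ℕ} (A : Matrix (Fin N) (Fin N) ℝ) : orth (-A) = - orth A := by
  have hc : cols (-A) = - cols A := by
    funext i
    rfl
  ext k i
  simp only [orth, Matrix.of_apply, Matrix.neg_apply, gramSchmidtNormed, hc, gs_neg, norm_neg,
    smul_neg, PiLp.neg_apply]

theorem cont_orth {X : Type*} [TopologicalSpace X] {N : ℕ}
    (A : X → Matrix (Fin N) (Fin N) ℝ) (hA : Continuous A) (hdet : ∀ x, (A x).det ≠ 0) :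
    Continuous fun x => orth (A x) := by
  refine continuous_matrix fun k i => ?_
  have hc : ∀ i, Continuous fun x => cols (A x) i := by
    intro i
    refine (PiLp.continuous_toLp 2 _).comp ?_
    exact continuous_pi fun k => hA.matrix_elem k i
  have h := cont_gs (fun x => cols (A x)) hc (fun x => cols_li _ (hdet x)) i
  have h2 : Continuous fun x => gramSchmidtNormed ℝ (cols (A x)) i := by
    have hn : Continuous fun x => ‖gramSchmidt ℝ (cols (A x)) i‖⁻¹ :=
      h.norm.inv₀ fun x => norm_ne_zero_iff.2 (gramSchmidt_ne_zero i (cols_li _ (hdet x)))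
    unfold gramSchmidtNormed
    exact hn.smul h
  exact (PiLp.continuous_apply 2 _ k).comp h2

/-- An odd continuous family of invertible matrices over the two-sphere (in polar coordinates)
forces `4 ∣ N`. -/
theorem four_dvd_of_odd {N : ℕ} (A : ℝ → ℝ → Matrix (Fin N) (Fin N) ℝ)
    (P T : ℝ) (hP : 0 < P) (hT : 0 < T)
    (hA : Continuous fun p : ℝ × ℝ => A p.1 p.2)
    (hdet : ∀ t θ, (A t θ).det ≠ 0)
    (hper : ∀ t θ, A t (θ + 2 * P) = A t θ)
    (hbase : ∀ θ, A 0 θ = A 0 0)
    (hodd : ∀ θ, A T (θ + P) = - A T θ) : 4 ∣ N := by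
  have h4 : N % 4 = 0 ∨ N % 4 = 1 ∨ N % 4 = 2 ∨ N % 4 = 3 := by omega
  have hodd' : ¬ Odd N := by
    intro hN
    have hc : Continuous fun θ => (A T θ).det :=
      Continuous.matrix_det (hA.comp (by fun_prop : Continuous fun θ : ℝ => (T, θ)))
    have := mul_pos_of_ne hc (fun θ => hdet T θ) 0 (0 + P)
    rw [hodd 0, Matrix.det_neg, Fintype.card_fin, hN.neg_one_pow] at this
    nlinarith [mul_self_nonneg (A T 0).det]
  rcases h4 with h | h | h | h
  · exact Nat.dvd_of_mod_eq_zero h
  · exact absurd (Nat.odd_iff.2 (by omega)) hodd'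
  · exfalso
    refine no_odd_orth h (fun t θ => orth (A t θ)) P T hP hT
      (cont_orth (fun p : ℝ × ℝ => A p.1 p.2) hA fun p => hdet _ _)
      (fun t θ => orth_orth _ (hdet t θ)) (fun t θ => by simp only [hper])
      (fun θ => by simp only [hbase θ]) (fun θ => ?_)
    simp only [hodd, orth_neg]
  · exact absurd (Nat.odd_iff.2 (by omega)) hodd'

end Pool.Agent.R786.Cliff
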