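import Mathlib
import Pool.Agent.R786.Circle2

set_option autoImplicit false

/-!
# Monotonicity of the transversal ratios
-/

namespace Pool.Agent.R786.TauAll

open Pool.Agent.H523R3.Trans Filter Topology

theorem limsup_le_one (A : ℕ → Set ℝ) (h0 : ∀ n, ∀ t ∈ A n, 0 ≤ t)
    (hle : ∀ n, ∀ t ∈ A n, t ≤ 1) : limsup (fun n => sSup (A n)) atTop ≤ 1 := by
  have hu : ∀ n : ℕ, sSup (A n) ≤ 1 := fun n => Real.sSup_le (hle n) zero_le_one
  have hl : ∀ n, 0 ≤ sSup (A n) := fun n => Real.sSup_nonneg (h0 n)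
  have hcob : IsCoboundedUnder (· ≤ ·) atTop (fun n => sSup (A n)) :=
    IsCoboundedUnder.of_frequently_ge (a := 0) (Frequently.of_forall hl)
  exact limsup_le_of_le hcob (Eventually.of_forall hu)

theorem tauS_le_one (d : ℕ) : tauS d ≤ 1 := by
  apply limsup_le_one
  · rintro n t ⟨Δ, -, rfl⟩
    exact transversalRatio_nonneg Δ
  · rintro n t ⟨Δ, hΔ, rfl⟩
    exact transversalRatio_le_one hΔ.1

theorem tauP_le_one {d : ℕ} (hd : 0 < d) : tauP d ≤ 1 := by
  apply limsup_le_one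
  · rintro n t ⟨p, -, rfl⟩
    exact transversalRatio_nonneg _
  · rintro n t ⟨p, hp, rfl⟩
    exact transversalRatio_le_one (isComplex_boundary hd hp)

theorem monoP : MonotoneOn tauP (Set.Ici 2) := by
  intro d (hd : 2 ≤ d) e (he : 2 ≤ e) hde
  rcases Nat.lt_or_ge e 4 with h | h
  · have h1 : (d = e) ∨ (d = 2 ∧ e = 3) := by omega
    rcases h1 with h1 | ⟨rfl, rfl⟩
    · rw [h1]
    · exact (Circle2.tauP2_le).trans Trans3.half_le_tauP3
  · rw [tauP_eq_one h]
    exact tauP_le_one (by omega)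

theorem monoS : MonotoneOn tauS (Set.Ici 2) := by
  intro d (hd : 2 ≤ d) e (he : 2 ≤ e) hde
  rcases Nat.lt_or_ge e 4 with h | h
  · have h1 : (d = e) ∨ (d = 2 ∧ e = 3) := by omega
    rcases h1 with h1 | ⟨rfl, rfl⟩
    · rw [h1]
    · exact (Circle2.tauS2_le).trans Trans3.half_le_tauS3
  · rw [tauS_eq_one h]
    exact tauS_le_one d

end Pool.Agent.R786.TauAll
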