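import Pool.Agent.R537.VC.Defs

/-!
# Correctness of the hardness reduction for VC-SEMIALG (piece HC)
-/

set_option autoImplicit false

namespace Pool.Agent.NPC.R537VC

open Pool.Agent.NPC Pool.Agent.NPC.ER

namespace HC

theorem holds_andL (x : ℕ → ℝ) (l : List Fm) : (andL l).Holds x ↔ ∀ φ ∈ l, φ.Holds x := by
  induction l with
  | nil => simp [andL, Fm.Holds]
  | cons a l ih => simp [andL, Fm.Holds, ih]

theorem holds_orL (x : ℕ → ℝ) (l : List Fm) : (orL l).Holds x ↔ ∃ φ ∈ l, φ.Holds x := by
  induction l with
  | nil => simp [orL, Fm.Holds]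
  | cons a l ih => simp [orL, Fm.Holds, ih]

theorem eval_sbT (x : ℕ → ℝ) (g : ℕ → ℕ) (t : Tm) : (sbT g t).eval x = t.eval (fun i => x (g i)) := by
  induction t with
  | var i => rfl
  | zero => rfl
  | one => rfl
  | add s t h1 h2 => simp [sbT, Tm.eval, h1, h2]
  | neg t h => simp [sbT, Tm.eval, h]
  | mul s t h1 h2 => simp [sbT, Tm.eval, h1, h2]

theorem holds_sbF (x : ℕ → ℝ) (g : ℕ → ℕ) (φ : Fm) :
    (sbF g φ).Holds x ↔ φ.Holds (fun i => x (g i)) := by
  induction φ with
  | eq s t => simp [sbF, Fm.Holds, eval_sbT]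
  | lt s t => simp [sbF, Fm.Holds, eval_sbT]
  | le s t => simp [sbF, Fm.Holds, eval_sbT]
  | not φ h => simp [sbF, Fm.Holds, h]
  | and φ ψ h1 h2 => simp [sbF, Fm.Holds, h1, h2]
  | or φ ψ h1 h2 => simp [sbF, Fm.Holds, h1, h2]

theorem hfm_iff (E U : List ℕ) (φ : Fm) (a : ℕ → ℝ) : (hfm (E, U, φ)).Holds a ↔
    (∀ j ≤ U.length, a (hb E j) = 0 ∨ a (hb E j) = 1) ∧
    (∀ e < E.length, a e = a (E.length + 1 + 3 * e)) ∧
    (∃ j ≤ U.length, a E.length = j ∧ a (hb E j) = 1) ∧
    (a (hb E U.length) = 0 ∨ φ.Holds (fun i => a (hvar E U i))) := by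
  simp only [hfm, Fm.Holds, holds_andL, holds_orL, holds_sbF, is0, is1, Tm.eval, List.mem_map,
    List.mem_range, forall_exists_index, and_imp, forall_apply_eq_imp_iff₂, Nat.lt_succ_iff]
  refine and_congr Iff.rfl (and_congr Iff.rfl (and_congr ?_ Iff.rfl))
  constructor
  · rintro ⟨ψ, ⟨j, hj, rfl⟩, h⟩
    simp only [Fm.Holds, Tm.eval, eval_natTm] at h
    exact ⟨j, hj, h⟩
  · rintro ⟨j, hj, h⟩
    refine ⟨_, ⟨j, hj, rfl⟩, ?_⟩
    simp only [Fm.Holds, Tm.eval, eval_natTm]
    exact h

theorem vc_iff (φ : Fm) (l l' : List Unit) (n k : ℕ) (h : l.length = n) (h' : l'.length = k) :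
    VCdim (φ, l, l') ↔ 1 ≤ k ∧ ∃ P : Finset (Fin n → ℝ), P.card = k ∧
      Shatters (family φ n) (P : Set (Fin n → ℝ)) := by
  subst h
  subst h'
  exact Iff.rfl

/-- the points -/
def pt (n : ℕ) (X : ℕ → ℝ) (j : ℕ) : Fin (n + 1) → ℝ := fun i => if i.1 < n then X i.1 else j

theorem pt_inj {n : ℕ} {X : ℕ → ℝ} {j k : ℕ} (h : pt n X j = pt n X k) : j = k := by
  have := congrFun h ⟨n, Nat.lt_succ_self n⟩
  simpa [pt] using this

theorem vasg_lo {n : ℕ} (X : ℕ → ℝ) (j : ℕ) (y : ℕ → ℝ) {i : ℕ} (h : i < n) :
    vasg (n + 1) (pt n X j) y i = X i := by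
  have h2 : i < n + 1 := Nat.lt_succ_of_lt h
  simp [vasg, pt, h, h2]

theorem vasg_last {n : ℕ} (X : ℕ → ℝ) (j : ℕ) (y : ℕ → ℝ) :
    vasg (n + 1) (pt n X j) y n = j := by
  simp [vasg, pt]

theorem vasg_hi {n : ℕ} (q : Fin (n + 1) → ℝ) (y : ℕ → ℝ) (r : ℕ) :
    vasg (n + 1) q y (n + 1 + r) = y (n + 1 + r) := by
  have h2 : ¬ (n + 1 + r < n + 1) := by omega
  exact dif_neg h2

theorem vasg_hb {E : List ℕ} (q : Fin (E.length + 1) → ℝ) (y : ℕ → ℝ) (j : ℕ) :
    vasg (E.length + 1) q y (hb E j) = y (hb E j) := vasg_hi _ _ _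

theorem hvar_congr {E U : List ℕ} (X : ℕ → ℝ) (j k : ℕ) (y : ℕ → ℝ) :
    (fun i => vasg (E.length + 1) (pt E.length X j) y (hvar E U i)) =
      fun i => vasg (E.length + 1) (pt E.length X k) y (hvar E U i) := by
  funext i
  unfold hvar
  by_cases h1 : i ∈ E
  · have h2 := List.idxOf_lt_length_iff.2 h1
    rw [if_pos h1, vasg_lo X j y h2, vasg_lo X k y h2]
  · rw [if_neg h1]
    by_cases h2 : i ∈ U
    · rw [if_pos h2, vasg_hi, vasg_hi]
    · rw [if_neg h2, vasg_hi, vasg_hi]

end HC

open HC in
theorem t_HC : S_HC := by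
  classical
  rintro ⟨E, U, φ⟩
  rw [show hinst (E, U, φ) = (hfm (E, U, φ), List.replicate (E.length + 1) (),
    List.replicate (U.length + 1) ()) from rfl,
    vc_iff _ _ _ (E.length + 1) (U.length + 1) List.length_replicate List.length_replicate]
  constructor
  · rintro ⟨x, hx⟩
    refine ⟨by omega, ?_⟩
    let X : ℕ → ℝ := fun e => x (E.getD e 0)
    refine ⟨(Finset.range (U.length + 1)).image (pt E.length X), ?_, ?_⟩
    · rw [Finset.card_image_of_injective _ (fun _ _ h => pt_inj h), Finset.card_range]
    · intro P' hP'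
      obtain ⟨z, hz⟩ := hx (fun u => decide (pt E.length X (U.idxOf u) ∈ P'))
      let y : ℕ → ℝ := fun m => if (m - (E.length + 1)) % 3 = 0 then X ((m - (E.length + 1)) / 3)
        else if (m - (E.length + 1)) % 3 = 1 then
          bre (decide (pt E.length X ((m - (E.length + 1)) / 3) ∈ P'))
        else z ((m - (E.length + 1)) / 3)
      have y0 : ∀ e, y (E.length + 1 + 3 * e) = X e := by
        intro e
        have h1 : (E.length + 1 + 3 * e - (E.length + 1)) = 3 * e := by omega
        simp only [y, h1]
        rw [if_pos (by omega), show 3 * e / 3 = e by omega]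
      have y1 : ∀ e, y (E.length + 1 + (3 * e + 1)) = bre (decide (pt E.length X e ∈ P')) := by
        intro e
        have h1 : (E.length + 1 + (3 * e + 1) - (E.length + 1)) = 3 * e + 1 := by omega
        simp only [y, h1]
        rw [if_neg (by omega), if_pos (by omega), show (3 * e + 1) / 3 = e by omega]
      have y2 : ∀ e, y (E.length + 1 + (3 * e + 2)) = z e := by
        intro e
        have h1 : (E.length + 1 + (3 * e + 2) - (E.length + 1)) = 3 * e + 2 := by omega
        simp only [y, h1]
        rw [if_neg (by omega), if_neg (by omega), show (3 * e + 2) / 3 = e by omega]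
      refine ⟨_, ⟨y, rfl⟩, ?_⟩
      have key : ∀ j, (hfm (E, U, φ)).Holds (vasg (E.length + 1) (pt E.length X j) y) ↔
          j ≤ U.length ∧ pt E.length X j ∈ P' := by
        intro j
        rw [hfm_iff]
        constructor
        · rintro ⟨-, -, ⟨k, hk, h1, h2⟩, -⟩
          rw [vasg_last] at h1
          have h3 : j = k := by exact_mod_cast h1
          subst h3
          rw [vasg_hb] at h2
          have h4 := y1 j
          rw [show hb E j = E.length + 1 + (3 * j + 1) from rfl] at h2
          rw [h4] at h2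
          refine ⟨hk, ?_⟩
          by_contra h5
          simp [bre, h5] at h2
        · rintro ⟨hj, hjP⟩
          refine ⟨fun k _ => ?_, fun e he => ?_, ⟨j, hj, vasg_last _ _ _, ?_⟩, Or.inr ?_⟩
          · rw [vasg_hb, show hb E k = E.length + 1 + (3 * k + 1) from rfl, y1]
            unfold bre
            split_ifs
            · right; rfl
            · left; rfl
          · rw [vasg_lo X j y he, vasg_hi, y0]
          · rw [vasg_hb, show hb E j = E.length + 1 + (3 * j + 1) from rfl, y1]
            simp [bre, hjP]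
          · convert hz using 1
            funext i
            unfold hvar mix3
            by_cases h1 : i ∈ E
            · have h2 := List.idxOf_lt_length_iff.2 h1
              simp only [if_pos h1]
              rw [vasg_lo X j y h2]
              show x (E.getD (E.idxOf i) 0) = x i
              rw [List.getD_eq_getElem _ _ h2, List.getElem_idxOf]
            · simp only [if_neg h1]
              by_cases h2 : i ∈ U
              · simp only [if_pos h2]
                rw [vasg_hi, y1]
              · simp only [if_neg h2]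
                rw [vasg_hi, y2]
      ext q
      constructor
      · rintro ⟨h1, h2⟩
        rw [Finset.coe_image] at h2
        obtain ⟨j, -, rfl⟩ := h2
        exact ((key j).1 h1).2
      · intro hq
        refine ⟨?_, hP' hq⟩
        have h2 := hP' hq
        rw [Finset.coe_image] at h2
        obtain ⟨j, hj, rfl⟩ := h2
        have hj' : j < U.length + 1 := Finset.mem_range.1 hj
        exact (key j).2 ⟨by omega, hq⟩
  · rintro ⟨-, P, hPc, hSh⟩
    obtain ⟨S, ⟨y, rfl⟩, hS⟩ := hSh (P : Set (Fin (E.length + 1) → ℝ)) subset_rfl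
    let X : ℕ → ℝ := fun e => y (E.length + 1 + 3 * e)
    have hPsub : P ⊆ (Finset.range (U.length + 1)).image (pt E.length X) := by
      intro q hq
      have h1 : q ∈ {x | (hfm (E, U, φ)).Holds (vasg (E.length + 1) x y)} := by
        have h2 : q ∈ (P : Set (Fin (E.length + 1) → ℝ)) := hq
        rw [← hS] at h2
        exact h2.1
      obtain ⟨-, h2, ⟨j, hj, h3, -⟩, -⟩ := (hfm_iff E U φ _).1 h1
      rw [Finset.mem_image]
      refine ⟨j, Finset.mem_range.2 (by omega), ?_⟩
      funext i
      unfold pt
      split_ifs with hi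
      · have h4 := h2 i.1 hi
        rw [vasg_hi] at h4
        show y (E.length + 1 + 3 * i.1) = q i
        rw [← h4]
        simp [vasg, i.2]
      · have h5 : i.1 = E.length := by have := i.2; omega
        rw [← h3]
        simp only [vasg, Nat.lt_succ_self, dif_pos]
        congr 1
        exact Fin.ext h5.symm
    have hPeq : P = (Finset.range (U.length + 1)).image (pt E.length X) := by
      apply Finset.eq_of_subset_of_card_le hPsub
      rw [Finset.card_image_of_injective _ (fun _ _ h => pt_inj h), Finset.card_range, hPc]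
    refine ⟨fun i => X (E.idxOf i), fun b => ?_⟩
    let P' : Set (Fin (E.length + 1) → ℝ) := {q | ∃ j ≤ U.length, q = pt E.length X j ∧
      (j = U.length ∨ b (U.getD j 0) = true)}
    have hP' : P' ⊆ (P : Set (Fin (E.length + 1) → ℝ)) := by
      rintro q ⟨j, hj, rfl, -⟩
      rw [hPeq, Finset.mem_coe, Finset.mem_image]
      exact ⟨j, Finset.mem_range.2 (by omega), rfl⟩
    obtain ⟨S', ⟨y', rfl⟩, hS'⟩ := hSh P' hP'
    have hmem : ∀ j ≤ U.length, ((hfm (E, U, φ)).Holds (vasg (E.length + 1) (pt E.length X j) y') ↔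
        (j = U.length ∨ b (U.getD j 0) = true)) := by
      intro j hj
      constructor
      · intro h
        have h1 : pt E.length X j ∈ P' := by
          rw [← hS']
          refine ⟨h, ?_⟩
          rw [hPeq, Finset.mem_coe, Finset.mem_image]
          exact ⟨j, Finset.mem_range.2 (by omega), rfl⟩
        obtain ⟨k, -, h2, h3⟩ := h1
        have := pt_inj h2
        subst this
        exact h3
      · intro h
        have h1 : pt E.length X j ∈ P' := ⟨j, hj, rfl, h⟩
        rw [← hS'] at h1
        exact h1.1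
    obtain ⟨c1, c2, ⟨k, hk, h3, h4⟩, c4⟩ :=
      (hfm_iff E U φ _).1 ((hmem U.length le_rfl).2 (Or.inl rfl))
    rw [vasg_last] at h3
    have h5 : U.length = k := by exact_mod_cast h3
    subst h5
    have c5 : φ.Holds (fun i => vasg (E.length + 1) (pt E.length X U.length) y' (hvar E U i)) := by
      rcases c4 with h | h
      · rw [h] at h4
        exact absurd h4 (by norm_num)
      · exact h
    have hbit : ∀ j < U.length, y' (hb E j) = bre (b (U.getD j 0)) := by
      intro j hj
      have h6 := hmem j hj.le
      have h7 : y' (hb E j) = 1 ↔ b (U.getD j 0) = true := by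
        constructor
        · intro h
          have h8 : (hfm (E, U, φ)).Holds (vasg (E.length + 1) (pt E.length X j) y') := by
            rw [hfm_iff]
            refine ⟨fun l hl => ?_, fun e he => ?_, ⟨j, hj.le, vasg_last _ _ _, ?_⟩, Or.inr ?_⟩
            · have := c1 l hl
              rw [vasg_hb] at this ⊢
              exact this
            · have := c2 e he
              rw [vasg_lo X _ y' he, vasg_hi] at this ⊢
              exact this
            · rw [vasg_hb]; exact h
            · rw [hvar_congr X j U.length y']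
              exact c5
          rcases h6.1 h8 with h9 | h9
          · omega
          · exact h9
        · intro h
          obtain ⟨-, -, ⟨l, -, h9, h10⟩, -⟩ := (hfm_iff E U φ _).1 (h6.2 (Or.inr h))
          rw [vasg_last] at h9
          have h11 : j = l := by exact_mod_cast h9
          subst h11
          rw [vasg_hb] at h10
          exact h10
      have h12 := c1 j hj.le
      rw [vasg_hb] at h12
      unfold bre
      split_ifs with h13
      · exact h7.2 h13
      · rcases h12 with h14 | h14
        · exact h14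
        · exact absurd (h7.1 h14) h13
    refine ⟨fun i => y' (E.length + 1 + (3 * i + 2)), ?_⟩
    convert c5 using 1
    funext i
    unfold hvar mix3
    by_cases h1 : i ∈ E
    · have h2 := List.idxOf_lt_length_iff.2 h1
      simp only [if_pos h1]
      rw [vasg_lo X _ y' h2]
    · simp only [if_neg h1]
      by_cases h2 : i ∈ U
      · simp only [if_pos h2]
        have h6 := List.idxOf_lt_length_iff.2 h2
        have h7 := hbit (U.idxOf i) h6
        rw [vasg_hi]
        rw [show hb E (U.idxOf i) = E.length + 1 + (3 * U.idxOf i + 1) from rfl] at h7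
        rw [h7, List.getD_eq_getElem _ _ h6, List.getElem_idxOf]
      · simp only [if_neg h2]
        rw [vasg_hi]

end Pool.Agent.NPC.R537VC
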